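import Mathlib
import Pool.Agent.H695R3.PP.Stmts

/-!
`TaskG2` of the project `H695-LP` (frozen statement S15671): the probability that a box has two
eigenvalues at distance at most `d`.
-/

set_option autoImplicit false

open scoped BigOperators ENNReal Topology
open MeasureTheory Filter
open Pool.Agent.H695R3.PP

namespace Pool.Agent.W810.PP

/-- The event for the cut at `m` and the site `j` of the right box. -/
def Cut (L : ℕ) (d κ : ℝ) (m j : ℤ) (V : ℤ → ℝ) : Prop :=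
  ∃ E ψ E' ψ', IsEig V (-(L : ℤ)) (m - 1) E ψ ∧ IsEig V m L E' ψ' ∧ |E - E'| ≤ 3 * d ∧
    κ ≤ ψ' j ^ 2

theorem isClosed_Cut (h2 : TaskClosed2) (L : ℕ) (d κ : ℝ) (m j : ℤ) :
    MeasurableSet {V : ℤ → ℝ | Cut L d κ m j V} := by
  have hC : IsClosed {p : (ℝ × (ℤ → ℝ)) × (ℝ × (ℤ → ℝ)) | |p.1.1 - p.2.1| ≤ 3 * d ∧
      κ ≤ p.2.2 j ^ 2} := by
    have h1 : Continuous fun p : (ℝ × (ℤ → ℝ)) × (ℝ × (ℤ → ℝ)) => |p.1.1 - p.2.1| := by fun_prop
    have h3 : Continuous fun p : (ℝ × (ℤ → ℝ)) × (ℝ × (ℤ → ℝ)) => p.2.2 j ^ 2 := by fun_prop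
    exact (isClosed_le h1 continuous_const).inter (isClosed_le continuous_const h3)
  have : {V : ℤ → ℝ | Cut L d κ m j V} = ⋃ R : ℕ, {V : ℤ → ℝ | ∃ E ψ E' ψ', |E| ≤ (R : ℝ) ∧
      |E'| ≤ (R : ℝ) ∧ IsEig V (-(L : ℤ)) (m - 1) E ψ ∧ IsEig V m L E' ψ' ∧
      (((E, ψ), (E', ψ')) : (ℝ × (ℤ → ℝ)) × (ℝ × (ℤ → ℝ))) ∈
      {p : (ℝ × (ℤ → ℝ)) × (ℝ × (ℤ → ℝ)) | |p.1.1 - p.2.1| ≤ 3 * d ∧ κ ≤ p.2.2 j ^ 2}} := by
    ext V
    simp only [Set.mem_iUnion, Set.mem_ofPred_eq]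
    constructor
    · rintro ⟨E, ψ, E', ψ', h1, h2, h3, h4⟩
      obtain ⟨R, hR⟩ := exists_nat_ge (max |E| |E'|)
      exact ⟨R, E, ψ, E', ψ', (le_max_left _ _).trans hR, (le_max_right _ _).trans hR, h1, h2,
        h3, h4⟩
    · rintro ⟨R, E, ψ, E', ψ', _, _, h1, h2, h3, h4⟩
      exact ⟨E, ψ, E', ψ', h1, h2, h3, h4⟩
  rw [this]
  refine MeasurableSet.iUnion fun R => ?_
  exact (h2 (-(L : ℤ)) (m - 1) m L R _ hC).measurableSet

/-- The equation of a box does not depend on the potential outside. -/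
theorem isEig_congr {V V' : ℤ → ℝ} {a b : ℤ} {E : ℝ} {ψ : ℤ → ℝ}
    (h : ∀ n, a ≤ n → n ≤ b → V n = V' n) (h1 : IsEig V a b E ψ) : IsEig V' a b E ψ :=
  ⟨h1.1, h1.2.1, fun n hn1 hn2 => by rw [← h n hn1 hn2]; exact h1.2.2 n hn1 hn2⟩

/-- The energies near the left box. -/
def Near (W : ℤ → ℝ) (ε d : ℝ) (L : ℕ) (m : ℤ) (x : ℤ → ℝ) : Set ℝ :=
  {E' | ∃ E ψ, IsEig (fun n => W n + ε * x n) (-(L : ℤ)) (m - 1) E ψ ∧ |E - E'| ≤ 3 * d}

theorem near_update (W : ℤ → ℝ) (ε d : ℝ) (L : ℕ) (m j : ℤ) (hj : m ≤ j) (x : ℤ → ℝ) (s : ℝ) :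
    Near W ε d L m (Function.update x j s) = Near W ε d L m x := by
  have h : ∀ n, -(L : ℤ) ≤ n → n ≤ m - 1 →
      (fun n => W n + ε * Function.update x j s n) n = (fun n => W n + ε * x n) n := by
    intro n _ hn
    simp only
    rw [Function.update_of_ne (by omega)]
  ext E'
  constructor
  · rintro ⟨E, ψ, h1, h2⟩
    exact ⟨E, ψ, isEig_congr h h1, h2⟩
  · rintro ⟨E, ψ, h1, h2⟩
    exact ⟨E, ψ, isEig_congr (fun n hn1 hn2 => (h n hn1 hn2).symm) h1, h2⟩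

theorem near_volume (hc : TaskCard) (W : ℤ → ℝ) (ε d : ℝ) (hd : 0 < d) (L : ℕ) (m : ℤ)
    (hm : -(L : ℤ) < m) (hm2 : m ≤ L) (x : ℤ → ℝ) :
    volume (Near W ε d L m x) ≤ ENNReal.ofReal (12 * ((L : ℝ) + 1) * d) := by
  obtain ⟨F, hF, hF2⟩ := hc (fun n => W n + ε * x n) (-(L : ℤ)) (m - 1) (by omega)
  have hsub : Near W ε d L m x ⊆ ⋃ E ∈ F, Set.Icc (E - 3 * d) (E + 3 * d) := by
    rintro E' ⟨E, ψ, h1, h2⟩
    simp only [Set.mem_iUnion]
    refine ⟨E, hF2 E ψ h1, ?_⟩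
    rw [abs_le] at h2
    constructor <;> linarith
  calc volume (Near W ε d L m x) ≤ volume (⋃ E ∈ F, Set.Icc (E - 3 * d) (E + 3 * d)) :=
        measure_mono hsub
    _ ≤ ∑ E ∈ F, volume (Set.Icc (E - 3 * d) (E + 3 * d)) := measure_biUnion_finset_le _ _
    _ = ∑ _E ∈ F, ENNReal.ofReal (6 * d) := by
        refine Finset.sum_congr rfl fun E _ => ?_
        rw [Real.volume_Icc]
        congr 1
        ring
    _ = F.card * ENNReal.ofReal (6 * d) := by rw [Finset.sum_const, nsmul_eq_mul]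
    _ = ENNReal.ofReal (F.card * (6 * d)) := by
        rw [ENNReal.ofReal_mul (Nat.cast_nonneg F.card), ENNReal.ofReal_natCast]
    _ ≤ ENNReal.ofReal (12 * ((L : ℝ) + 1) * d) := by
        apply ENNReal.ofReal_le_ofReal
        have h3 : (F.card : ℤ) ≤ 2 * L := by linarith
        have h4 : (F.card : ℝ) ≤ 2 * L := by exact_mod_cast h3
        nlinarith

/-- A normalised vector of a box has a large entry. -/
theorem exists_large {V : ℤ → ℝ} {a b : ℤ} {E : ℝ} {ψ : ℤ → ℝ} {L : ℕ} (ha : -(L : ℤ) ≤ a)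
    (hb : b ≤ L) (h : IsEig V a b E ψ) : ∃ j, a ≤ j ∧ j ≤ b ∧ 1 / (2 * (L : ℝ) + 1) ≤ ψ j ^ 2 := by
  by_contra hcon
  push Not at hcon
  have h1 : ∑ n ∈ Finset.Icc a b, ψ n ^ 2 = 1 := h.2.1
  have hne : (Finset.Icc a b).Nonempty := by
    rw [Finset.nonempty_iff_ne_empty]
    intro h2
    rw [h2, Finset.sum_empty] at h1
    exact zero_ne_one h1
  have h2 : ∑ n ∈ Finset.Icc a b, ψ n ^ 2 < ∑ _n ∈ Finset.Icc a b, 1 / (2 * (L : ℝ) + 1) :=
    Finset.sum_lt_sum_of_nonempty hne fun n hn =>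
      hcon n (Finset.mem_Icc.mp hn).1 (Finset.mem_Icc.mp hn).2
  rw [h1, Finset.sum_const, nsmul_eq_mul] at h2
  have h3 : ((Finset.Icc a b).card : ℝ) ≤ 2 * (L : ℝ) + 1 := by
    have h4 : (Finset.Icc a b).card ≤ 2 * L + 1 := by
      rw [Int.card_Icc]
      omega
    exact_mod_cast h4
  have h5 : (0 : ℝ) < 2 * (L : ℝ) + 1 := by positivity
  rw [mul_one_div, lt_div_iff₀ h5] at h2
  linarith

theorem bad2_sub (hs : TaskSplit) (W : ℤ → ℝ) (ε d : ℝ) (L : ℕ) (x : ℤ → ℝ)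
    (h : Bad2 L d (fun n => W n + ε * x n)) :
    ∃ m ∈ Finset.Ioc (-(L : ℤ)) L, ∃ j ∈ Finset.Icc m (L : ℤ),
      Cut L d (1 / (2 * (L : ℝ) + 1)) m j (fun n => W n + ε * x n) := by
  obtain ⟨E, ψ, E', ψ', h1, h2, h3, h4⟩ := h
  obtain ⟨m, hm1, hm2, lam, φ, lam', φ', h5, h6, h7⟩ :=
    hs _ _ _ E E' d ψ ψ' (by omega) h1 h2 h3 h4
  obtain ⟨j, hj1, hj2, hj3⟩ := exists_large (by omega) le_rfl h6
  exact ⟨m, Finset.mem_Ioc.mpr ⟨hm1, hm2⟩, j, Finset.mem_Icc.mpr ⟨hj1, hj2⟩, lam, φ, lam', φ',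
    h5, h6, h7, hj3⟩

theorem cut_le (hsap : TaskSAP) (h2 : TaskClosed2) (hc : TaskCard) (W : ℤ → ℝ) (ε d : ℝ)
    (hε : 0 < ε) (hd : 0 < d) (L : ℕ) (m j : ℤ) (hm : -(L : ℤ) < m) (hm2 : m ≤ L) (hj : m ≤ j) :
    PZ {x : ℤ → ℝ | Cut L d (1 / (2 * (L : ℝ) + 1)) m j (fun n => W n + ε * x n)} ≤
      ENNReal.ofReal (12 * ((L : ℝ) + 1) ^ 2 * d / ε) := by
  have hκ : (0 : ℝ) < 1 / (2 * (L : ℝ) + 1) := by positivity
  have hmeas : MeasurableSet {x : ℤ → ℝ |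
      Cut L d (1 / (2 * (L : ℝ) + 1)) m j (fun n => W n + ε * x n)} := by
    have hf : Measurable fun x : ℤ → ℝ => (fun n => W n + ε * x n) := by
      apply measurable_pi_lambda
      intro n
      exact (measurable_const.mul (measurable_pi_apply _)).const_add _
    exact hf (isClosed_Cut h2 L d (1 / (2 * (L : ℝ) + 1)) m j)
  refine (hsap W ε (1 / (2 * (L : ℝ) + 1)) m L j (Near W ε d L m) _ hε hκ hmeas
    (fun x s => near_update W ε d L m j hj x s) ?_).trans ?_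
  · rintro x ⟨E, ψ, E', ψ', h3, h4, h5, h6⟩
    exact ⟨E', ⟨E, ψ, h3, h5⟩, ψ', h4, h6⟩
  · calc ∫⁻ x, ENNReal.ofReal (1 / (2 * ε * (1 / (2 * (L : ℝ) + 1)))) *
          volume (Near W ε d L m x) ∂PZ
        ≤ ∫⁻ _x, ENNReal.ofReal (1 / (2 * ε * (1 / (2 * (L : ℝ) + 1)))) *
          ENNReal.ofReal (12 * ((L : ℝ) + 1) * d) ∂PZ := by
          apply lintegral_mono
          intro x
          exact mul_le_mul_right (near_volume hc W ε d hd L m hm hm2 x) _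
      _ = ENNReal.ofReal (1 / (2 * ε * (1 / (2 * (L : ℝ) + 1)))) *
          ENNReal.ofReal (12 * ((L : ℝ) + 1) * d) := by
          rw [lintegral_const, measure_univ, mul_one]
      _ = ENNReal.ofReal (1 / (2 * ε * (1 / (2 * (L : ℝ) + 1))) * (12 * ((L : ℝ) + 1) * d)) := by
          rw [ENNReal.ofReal_mul (p := 1 / (2 * ε * (1 / (2 * (L : ℝ) + 1)))) (by positivity)]
      _ ≤ ENNReal.ofReal (12 * ((L : ℝ) + 1) ^ 2 * d / ε) := by
          apply ENNReal.ofReal_le_ofReal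
          have hL : (0 : ℝ) ≤ L := Nat.cast_nonneg L
          have h1 : 1 / (2 * ε * (1 / (2 * (L : ℝ) + 1))) * (12 * ((L : ℝ) + 1) * d) =
              (2 * (L : ℝ) + 1) * (6 * ((L : ℝ) + 1) * d) / ε := by
            field_simp
            ring
          rw [h1]
          apply div_le_div_of_nonneg_right _ hε.le
          have : 0 ≤ ((L : ℝ) + 1) * d := by positivity
          nlinarith

theorem taskG2 (hsap : TaskSAP) (h2 : TaskClosed2) (hc : TaskCard) (hs : TaskSplit) : TaskG2 := by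
  refine ⟨48, by norm_num, fun ε d W L hε hd => ?_⟩
  have hsub : {x : ℤ → ℝ | Bad2 L d (fun n => W n + ε * x n)} ⊆
      ⋃ m ∈ Finset.Ioc (-(L : ℤ)) L, ⋃ j ∈ Finset.Icc m (L : ℤ),
        {x : ℤ → ℝ | Cut L d (1 / (2 * (L : ℝ) + 1)) m j (fun n => W n + ε * x n)} := by
    intro x hx
    obtain ⟨m, hm, j, hj, h⟩ := bad2_sub hs W ε d L x hx
    simp only [Set.mem_iUnion]
    exact ⟨m, hm, j, hj, h⟩
  set p : ℝ := 12 * ((L : ℝ) + 1) ^ 2 * d / ε with hp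
  have hp0 : 0 ≤ p := by positivity
  calc PZ {x : ℤ → ℝ | Bad2 L d (fun n => W n + ε * x n)}
      ≤ PZ (⋃ m ∈ Finset.Ioc (-(L : ℤ)) L, ⋃ j ∈ Finset.Icc m (L : ℤ),
        {x : ℤ → ℝ | Cut L d (1 / (2 * (L : ℝ) + 1)) m j (fun n => W n + ε * x n)}) := measure_mono hsub
    _ ≤ ∑ m ∈ Finset.Ioc (-(L : ℤ)) L, PZ (⋃ j ∈ Finset.Icc m (L : ℤ),
        {x : ℤ → ℝ | Cut L d (1 / (2 * (L : ℝ) + 1)) m j (fun n => W n + ε * x n)}) :=
        measure_biUnion_finset_le _ _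
    _ ≤ ∑ m ∈ Finset.Ioc (-(L : ℤ)) L, ∑ j ∈ Finset.Icc m (L : ℤ),
        PZ {x : ℤ → ℝ | Cut L d (1 / (2 * (L : ℝ) + 1)) m j (fun n => W n + ε * x n)} :=
        Finset.sum_le_sum fun m _ => measure_biUnion_finset_le _ _
    _ ≤ ∑ m ∈ Finset.Ioc (-(L : ℤ)) L, ∑ _j ∈ Finset.Icc m (L : ℤ), ENNReal.ofReal p := by
        refine Finset.sum_le_sum fun m hm => Finset.sum_le_sum fun j hj => ?_
        rw [Finset.mem_Ioc] at hm
        rw [Finset.mem_Icc] at hj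
        exact cut_le hsap h2 hc W ε d hε hd L m j hm.1 hm.2 hj.1
    _ ≤ ∑ _m ∈ Finset.Ioc (-(L : ℤ)) L, ((2 * L + 1 : ℕ) : ℝ≥0∞) * ENNReal.ofReal p := by
        refine Finset.sum_le_sum fun m hm => ?_
        rw [Finset.mem_Ioc] at hm
        rw [Finset.sum_const, nsmul_eq_mul]
        apply mul_le_mul_left
        have : (Finset.Icc m (L : ℤ)).card ≤ 2 * L + 1 := by
          rw [Int.card_Icc]
          omega
        exact_mod_cast this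
    _ = ((2 * L : ℕ) : ℝ≥0∞) * (((2 * L + 1 : ℕ) : ℝ≥0∞) * ENNReal.ofReal p) := by
        rw [Finset.sum_const, nsmul_eq_mul]
        congr 2
        rw [Int.card_Ioc]
        omega
    _ = ENNReal.ofReal (((2 * L : ℕ) : ℝ) * (((2 * L + 1 : ℕ) : ℝ) * p)) := by
        rw [ENNReal.ofReal_mul (by positivity), ENNReal.ofReal_mul (by positivity),
          ENNReal.ofReal_natCast, ENNReal.ofReal_natCast]
    _ ≤ ENNReal.ofReal (48 * ((L : ℝ) + 1) ^ 4 * d / ε) := by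
        apply ENNReal.ofReal_le_ofReal
        push_cast
        have hL : (0 : ℝ) ≤ L := Nat.cast_nonneg L
        have h1 : 2 * (L : ℝ) * ((2 * (L : ℝ) + 1) * p) ≤ 4 * ((L : ℝ) + 1) ^ 2 * p := by
          have : 2 * (L : ℝ) * (2 * (L : ℝ) + 1) ≤ 4 * ((L : ℝ) + 1) ^ 2 := by nlinarith
          calc 2 * (L : ℝ) * ((2 * (L : ℝ) + 1) * p) = 2 * (L : ℝ) * (2 * (L : ℝ) + 1) * p := by ring
            _ ≤ 4 * ((L : ℝ) + 1) ^ 2 * p := mul_le_mul_of_nonneg_right this hp0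
        refine h1.trans (le_of_eq ?_)
        rw [hp]
        ring

end Pool.Agent.W810.PP
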