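import Mathlib
import Pool.Agent.H695R3.PP.Stmts

/-!
Three elementary tasks of the project `H695-LP` (frozen statement S15671): numerics, small open
subgroups, transfer of the law of a window.
-/

set_option autoImplicit false

open scoped BigOperators ENNReal Topology
open MeasureTheory Filter
open Pool.Agent.H695R3.PP

namespace Pool.Agent.W810.PP

/-! ### Numerics -/

theorem exp_le_geom {κ A : ℝ} (hκ : 0 < κ) (hA : 1 ≤ A) : ∃ (M r : ℝ), 0 < M ∧ 0 < r ∧ r ≤ 1 / 4 ∧
    A * r ≤ 1 / 4 ∧ ∀ k : ℕ, Real.exp (-(κ * 4 ^ k)) ≤ M * r ^ k := by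
  obtain ⟨p, hp⟩ := pow_unbounded_of_one_lt A (by norm_num : (1 : ℝ) < 4)
  refine ⟨((p + 1).factorial : ℝ) / κ ^ (p + 1), ((4 : ℝ) ^ (p + 1))⁻¹, by positivity, by positivity,
    ?_, ?_, ?_⟩
  · rw [inv_eq_one_div]
    apply one_div_le_one_div_of_le (by norm_num)
    calc (4 : ℝ) = 4 ^ 1 := (pow_one _).symm
      _ ≤ 4 ^ (p + 1) := pow_le_pow_right₀ (by norm_num) (by omega)
  · rw [← div_eq_mul_inv, div_le_iff₀ (by positivity), pow_succ]
    linarith
  · intro k
    have h1 := Real.pow_div_factorial_le_exp (x := κ * 4 ^ k) (by positivity) (p + 1)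
    rw [Real.exp_neg]
    have h2 : 0 < (κ * 4 ^ k) ^ (p + 1) / ((p + 1).factorial : ℝ) := by positivity
    refine (inv_anti₀ h2 h1).trans (le_of_eq ?_)
    rw [inv_div, mul_pow, inv_pow, ← pow_mul, ← pow_mul, mul_comm k (p + 1), div_mul_eq_div_div,
      div_eq_mul_inv _ ((4 : ℝ) ^ ((p + 1) * k))]

theorem taskNum : TaskNum := by
  intro κ A hκ hA
  obtain ⟨M, r, hM, hr, hr4, hAr, hle⟩ := exp_le_geom hκ hA
  have hA0 : 0 < A := by linarith
  have hsg : Summable fun k : ℕ => (1 / 4 : ℝ) ^ k :=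
    summable_geometric_of_lt_one (by norm_num) (by norm_num)
  have hr1 : r < 1 := by linarith
  constructor
  · refine Summable.of_nonneg_of_le (fun k => by positivity) (fun k => ?_) (hsg.mul_left M)
    calc A ^ k * Real.exp (-(κ * 4 ^ k)) ≤ A ^ k * (M * r ^ k) :=
          mul_le_mul_of_nonneg_left (hle k) (by positivity)
      _ = M * (A * r) ^ k := by rw [mul_pow]; ring
      _ ≤ M * (1 / 4) ^ k := by
          apply mul_le_mul_of_nonneg_left _ hM.le
          exact pow_le_pow_left₀ (by positivity) hAr k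
  · have hsr : Summable fun j : ℕ => r ^ j := summable_geometric_of_lt_one hr.le hr1
    have hb : ∀ k : ℕ, A ^ k * ∑' j : ℕ, Real.exp (-(κ * 4 ^ (k + j))) ≤
        (M * ∑' j : ℕ, r ^ j) * (1 / 4) ^ k := by
      intro k
      have h1 : Summable fun j : ℕ => M * r ^ (k + j) := by
        simp_rw [pow_add]
        exact (hsr.mul_left _).mul_left _
      have h2 : Summable fun j : ℕ => Real.exp (-(κ * 4 ^ (k + j))) :=
        Summable.of_nonneg_of_le (fun j => (Real.exp_pos _).le) (fun j => hle (k + j)) h1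
      have h3 : ∑' j : ℕ, Real.exp (-(κ * 4 ^ (k + j))) ≤ ∑' j : ℕ, M * r ^ (k + j) :=
        h2.tsum_le_tsum (fun j => hle (k + j)) h1
      have h4 : ∑' j : ℕ, M * r ^ (k + j) = M * r ^ k * ∑' j : ℕ, r ^ j := by
        rw [← tsum_mul_left]
        refine tsum_congr fun j => ?_
        rw [pow_add]
        ring
      have h5 : 0 ≤ ∑' j : ℕ, r ^ j := tsum_nonneg fun j => by positivity
      calc A ^ k * ∑' j : ℕ, Real.exp (-(κ * 4 ^ (k + j)))
          ≤ A ^ k * (M * r ^ k * ∑' j : ℕ, r ^ j) := by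
            rw [← h4]
            exact mul_le_mul_of_nonneg_left h3 (by positivity)
        _ = (M * ∑' j : ℕ, r ^ j) * (A * r) ^ k := by rw [mul_pow]; ring
        _ ≤ (M * ∑' j : ℕ, r ^ j) * (1 / 4) ^ k := by
            apply mul_le_mul_of_nonneg_left _ (by positivity)
            exact pow_le_pow_left₀ (by positivity) hAr k
    have h0 : ∀ k : ℕ, 0 ≤ A ^ k * ∑' j : ℕ, Real.exp (-(κ * 4 ^ (k + j))) := fun k =>
      mul_nonneg (by positivity) (tsum_nonneg fun j => (Real.exp_pos _).le)
    have hlim := (tendsto_pow_atTop_nhds_zero_of_lt_one (by norm_num : (0 : ℝ) ≤ 1 / 4)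
      (by norm_num)).const_mul (M * ∑' j : ℕ, r ^ j)
    rw [mul_zero] at hlim
    exact squeeze_zero h0 hb hlim

/-! ### The group -/

theorem zsmul_ne {Ω : Type} [AddCommGroup Ω] [TopologicalSpace Ω] [T2Space Ω] [Infinite Ω] {α : Ω}
    (hα : Dense (Set.range (fun n : ℤ => n • α))) {j : ℤ} (hj : j ≠ 0) : j • α ≠ 0 := by
  intro h
  have hfin : (Set.range (fun n : ℤ => n • α)).Finite := by
    have hsub : Set.range (fun n : ℤ => n • α) ⊆ (fun n : ℤ => n • α) '' (Set.Ico 0 |j|) := by
      rintro _ ⟨n, rfl⟩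
      refine ⟨n % |j|, ⟨Int.emod_nonneg _ (abs_ne_zero.mpr hj),
        Int.emod_lt_of_pos _ (abs_pos.mpr hj)⟩, ?_⟩
      have h1 : n % |j| = n - |j| * (n / |j|) := by
        have := Int.emod_add_mul_ediv n |j|
        linarith
      have h2 : |j| • α = 0 := by
        rcases abs_choice j with h3 | h3
        · rw [h3, h]
        · rw [h3, neg_smul, h, neg_zero]
      show (n % |j|) • α = n • α
      rw [h1, sub_smul, mul_comm, mul_smul, h2, smul_zero, sub_zero]
    exact ((Set.finite_Ico 0 |j|).image _).subset hsub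
  have h1 : Set.range (fun n : ℤ => n • α) = Set.univ := by
    rw [← hfin.isClosed.closure_eq, hα.closure_eq]
  rw [h1] at hfin
  exact Set.infinite_univ hfin

theorem taskGroup : TaskGroup := by
  intro Ω _ _ _ _ _ _ _ α hα N
  have hU : IsOpen ((fun j : ℤ => j • α) '' {j : ℤ | j ≠ 0 ∧ |j| ≤ N})ᶜ := by
    apply IsClosed.isOpen_compl (self := ?_)
    apply Set.Finite.isClosed
    apply Set.Finite.image
    apply (Set.finite_Icc (-(N : ℤ)) N).subset
    rintro j ⟨_, hj⟩
    exact abs_le.mp hj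
  have h0 : (0 : Ω) ∈ ((fun j : ℤ => j • α) '' {j : ℤ | j ≠ 0 ∧ |j| ≤ N})ᶜ := by
    rintro ⟨j, ⟨hj, _⟩, h⟩
    exact zsmul_ne hα hj h
  obtain ⟨H, hH⟩ := ProfiniteGrp.exist_openNormalAddSubgroup_sub_open_nhds_of_zero hU h0
  refine ⟨H.toAddSubgroup, H.isOpen', ?_, ?_⟩
  · exact AddSubgroup.quotient_finite_of_isOpen _ H.isOpen'
  · intro j hj hjN hmem
    exact hH hmem ⟨j, ⟨hj, hjN⟩, rfl⟩

/-! ### The law of a window -/

theorem pi_map_inj {Q I : Type} [Fintype Q] [Fintype I] (f : I → Q) (hf : Function.Injective f)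
    (μ : Measure ℝ) [IsProbabilityMeasure μ] :
    (Measure.pi fun _ : Q => μ).map (fun η i => η (f i)) = Measure.pi fun _ : I => μ := by
  classical
  symm
  have hm : Measurable (fun (η : Q → ℝ) (i : I) => η (f i)) :=
    measurable_pi_lambda _ fun i => measurable_pi_apply _
  refine Measure.pi_eq fun s hs => ?_
  rw [Measure.map_apply hm (MeasurableSet.univ_pi hs)]
  have h1 : (fun (η : Q → ℝ) (i : I) => η (f i)) ⁻¹' Set.univ.pi s =
      Set.univ.pi (fun q : Q => ⋂ (i : I) (_ : f i = q), s i) := by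
    ext η
    simp only [Set.mem_preimage, Set.mem_pi, Set.mem_univ, true_implies, Set.mem_iInter]
    constructor
    · rintro h q i rfl
      exact h i
    · intro h i
      exact h (f i) i rfl
  rw [h1, Measure.pi_pi]
  have h2 : ∀ q : Q, q ∉ Finset.univ.image f → μ (⋂ (i : I) (_ : f i = q), s i) = 1 := by
    intro q hq
    have : (⋂ (i : I) (_ : f i = q), s i) = Set.univ := by
      apply Set.eq_univ_of_forall
      intro x
      simp only [Set.mem_iInter]
      intro i hi
      exact absurd (Finset.mem_image.mpr ⟨i, Finset.mem_univ _, hi⟩) hq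
    rw [this, measure_univ]
  rw [← Finset.prod_subset (Finset.subset_univ (Finset.univ.image f)) fun q _ hq => h2 q hq,
    Finset.prod_image fun a _ b _ h => hf h]
  refine Finset.prod_congr rfl fun i _ => ?_
  congr 1
  ext x
  simp only [Set.mem_iInter]
  constructor
  · intro h
    exact h i rfl
  · intro h j hj
    rw [hf hj]
    exact h

theorem taskTransfer : TaskTransfer := by
  intro Q _ q L W ε B hq hB hw
  classical
  set I : Finset ℤ := Finset.Icc (-(L : ℤ)) L with hI
  -- the event in terms of the window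
  let ext : (I → ℝ) → (ℤ → ℝ) := fun y n => if h : n ∈ I then W n + ε * y ⟨n, h⟩ else W n
  have hext : Measurable ext := by
    apply measurable_pi_lambda
    intro n
    by_cases h : n ∈ I
    · simp only [ext, dif_pos h]
      exact (measurable_const.mul (measurable_pi_apply _)).const_add _
    · simp only [ext, dif_neg h]
      exact measurable_const
  set S : Set (I → ℝ) := ext ⁻¹' B with hS
  have hSm : MeasurableSet S := hext hB
  have h1 : {η : Q → ℝ | (fun n => W n + ε * η (q n)) ∈ B} =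
      (fun (η : Q → ℝ) (i : I) => η (q i)) ⁻¹' S := by
    ext η
    simp only [Set.mem_ofPred_eq, Set.mem_preimage, hS]
    apply hw
    intro n hn1 hn2
    have hn : n ∈ I := Finset.mem_Icc.mpr ⟨hn1, hn2⟩
    simp only [ext, dif_pos hn]
  have h2 : {x : ℤ → ℝ | (fun n => W n + ε * x n) ∈ B} = I.restrict ⁻¹' S := by
    ext x
    simp only [Set.mem_ofPred_eq, Set.mem_preimage, hS]
    apply hw
    intro n hn1 hn2
    have hn : n ∈ I := Finset.mem_Icc.mpr ⟨hn1, hn2⟩
    simp only [ext, dif_pos hn, Finset.restrict]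
  have hinj : Function.Injective fun i : I => q i := by
    intro i j hij
    apply Subtype.ext
    exact hq (Finset.mem_Icc.mp i.2) (Finset.mem_Icc.mp j.2) hij
  have hm : Measurable (fun (η : Q → ℝ) (i : I) => η (q i)) :=
    measurable_pi_lambda _ fun i => measurable_pi_apply _
  rw [h1, h2, ← Measure.map_apply hm hSm, pi_map_inj (fun i : I => q i) hinj U,
    ← Measure.map_apply (Finset.measurable_restrict I) hSm]
  unfold PZ
  rw [Measure.infinitePi_map_restrict]

end Pool.Agent.W810.PP
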