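import Mathlib
import Pool.Agent.W810.PP.Misc

/-!
The numerical conditions of the assembly of S15671, for `L k = 16 ^ k`, `a k = 32 ^ (-k)`,
`τ k = exp (- κ 4 ^ k)`, `d k = B ^ (-k)` with `B = 262144`, `ε k = ε 2 ^ (-k)`.
-/

set_option autoImplicit false

open scoped BigOperators ENNReal Topology
open MeasureTheory Filter
open Pool.Agent.H695R3.PP

namespace Pool.Agent.W810.PP

/-- Box sizes. -/
def Lk (k : ℕ) : ℕ := 16 ^ k
/-- Lower bounds at the origin. -/
noncomputable def ak (k : ℕ) : ℝ := (1 / 32) ^ k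
/-- Upper bounds at the ends. -/
noncomputable def tk (κ : ℝ) (k : ℕ) : ℝ := Real.exp (-(κ * 4 ^ k))
/-- Spacings. -/
noncomputable def dk (k : ℕ) : ℝ := (1 / 262144) ^ k
/-- Coupling constants. -/
noncomputable def ek (ε : ℝ) (k : ℕ) : ℝ := ε * (1 / 2) ^ k

theorem Lk_strictMono : StrictMono Lk := by
  intro i j hij
  exact Nat.pow_lt_pow_right (by norm_num) hij

theorem Lk_pos (k : ℕ) : 1 ≤ Lk k := Nat.one_le_pow _ _ (by norm_num)

theorem ak_pos (k : ℕ) : 0 < ak k := by unfold ak; positivity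
theorem tk_pos (κ : ℝ) (k : ℕ) : 0 < tk κ k := Real.exp_pos _
theorem dk_pos (k : ℕ) : 0 < dk k := by unfold dk; positivity
theorem ek_pos {ε : ℝ} (hε : 0 < ε) (k : ℕ) : 0 < ek ε k := by unfold ek; positivity

theorem ek_le_one {ε : ℝ} (hε : 0 < ε) (hε1 : ε ≤ 1) (k : ℕ) : ek ε k ≤ 1 := by
  unfold ek
  have h : (1 / 2 : ℝ) ^ k ≤ 1 := pow_le_one₀ (by norm_num) (by norm_num)
  calc ε * (1 / 2) ^ k ≤ 1 * 1 := mul_le_mul hε1 h (by positivity) (by norm_num)
    _ = 1 := one_mul 1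

theorem summable_ek (ε : ℝ) : Summable (ek ε) :=
  (summable_geometric_of_lt_one (by norm_num) (by norm_num)).mul_left ε

theorem tsum_ek (ε : ℝ) : ∑' k, ek ε k = 2 * ε := by
  unfold ek
  rw [tsum_mul_left, tsum_geometric_of_lt_one (by norm_num) (by norm_num)]
  ring

theorem tk_div_dk (κ : ℝ) (k : ℕ) : tk κ k / dk (k + 1) = 262144 * (262144 ^ k *
    Real.exp (-(κ * 4 ^ k))) := by
  unfold tk dk
  rw [one_div, inv_pow, div_inv_eq_mul, pow_succ]
  ring

theorem num_small (hN : TaskNum) {κ A c : ℝ} (hκ : 0 < κ) (hA : 1 ≤ A) (hc : 0 < c) :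
    ∀ᶠ k : ℕ in atTop, A ^ k * Real.exp (-(κ * 4 ^ k)) ≤ c :=
  ((hN κ A hκ hA).1.tendsto_atTop_zero.eventually (gt_mem_nhds hc)).mono fun _ h => h.le

theorem num_cond3 (hN : TaskNum) {κ : ℝ} (hκ : 0 < κ) :
    ∀ᶠ k in atTop, 4 * tk κ k ≤ dk (k + 1) := by
  refine (num_small hN (A := 262144) (c := 1 / (4 * 262144)) hκ (by norm_num)
    (by norm_num)).mono fun k hk => ?_
  have h1 : tk κ k / dk (k + 1) ≤ 1 / 4 := by
    rw [tk_div_dk]
    linarith
  rw [div_le_iff₀ (dk_pos _)] at h1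
  linarith

theorem num_cond4 (hN : TaskNum) {κ : ℝ} (hκ : 0 < κ) :
    ∀ᶠ k in atTop, ak (k + 1) + 4 * tk κ k / dk (k + 1) ≤ ak k := by
  refine (num_small hN (A := 32 * 262144) (c := 1 / (8 * 262144)) hκ (by norm_num)
    (by norm_num)).mono fun k hk => ?_
  have h1 : tk κ k / dk (k + 1) ≤ 1 / 8 * ak k := by
    rw [tk_div_dk]
    unfold ak
    rw [mul_pow, mul_assoc] at hk
    have h32 : (0 : ℝ) < 32 ^ k := by positivity
    have h2 : (262144 : ℝ) ^ k * Real.exp (-(κ * 4 ^ k)) ≤ 1 / (8 * 262144) * (1 / 32 ^ k) := by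
      rw [mul_one_div, le_div_iff₀ h32]
      linarith
    rw [one_div_pow]
    linarith
  have h3 : ak (k + 1) = 1 / 32 * ak k := by
    unfold ak
    rw [pow_succ]
    ring
  have h4 : 4 * tk κ k / dk (k + 1) = 4 * (tk κ k / dk (k + 1)) := by ring
  rw [h3, h4]
  have := ak_pos k
  linarith

theorem num_cond5 (hN : TaskNum) {κ : ℝ} (hκ : 0 < κ) :
    Summable (fun k => tk κ k / dk (k + 1)) := by
  simp_rw [tk_div_dk]
  exact (hN κ 262144 hκ (by norm_num)).1.mul_left _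

theorem num_cond6 (hN : TaskNum) {κ : ℝ} (hκ : 0 < κ) : Summable (tk κ) := by
  have h := (hN κ 1 hκ le_rfl).1
  refine h.congr fun k => ?_
  rw [one_pow, one_mul]
  rfl

theorem num_cond7 : Tendsto (fun k => (2 * (Lk k : ℝ) + 1) * ak k ^ 2) atTop (𝓝 0) := by
  have h1 : ∀ k : ℕ, (2 * (Lk k : ℝ) + 1) * ak k ^ 2 = 2 * (1 / 64) ^ k + (1 / 1024) ^ k := by
    intro k
    unfold Lk ak
    push_cast
    rw [← pow_mul, mul_comm k 2, pow_mul]
    have h2 : (16 : ℝ) ^ k * ((1 / 32) ^ 2) ^ k = (1 / 64) ^ k := by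
      rw [← mul_pow]
      norm_num
    have h3 : ((1 / 32 : ℝ) ^ 2) ^ k = (1 / 1024) ^ k := by norm_num
    rw [← h2, ← h3]
    ring
  simp_rw [h1]
  have h2 := (tendsto_pow_atTop_nhds_zero_of_lt_one (by norm_num : (0 : ℝ) ≤ 1 / 64)
    (by norm_num)).const_mul 2
  have h3 := tendsto_pow_atTop_nhds_zero_of_lt_one (by norm_num : (0 : ℝ) ≤ 1 / 1024)
    (by norm_num)
  simpa using h2.add h3

theorem num_cond8 {κ : ℝ} (hκ : 0 < κ) :
    Tendsto (fun k => (2 * (Lk k : ℝ) + 1) * ∑' j, tk κ (k + j) / dk (k + j + 1)) atTop (𝓝 0) := by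
  obtain ⟨M, r, hM, hr, hr4, hAr, hle⟩ := exp_le_geom (A := 16 * 262144) hκ (by norm_num)
  set s : ℝ := 262144 * r with hs
  have hs0 : 0 < s := by positivity
  have hs1 : 16 * s ≤ 1 / 4 := by rw [hs]; linarith
  have hs2 : s < 1 := by linarith
  have hsum : Summable fun j : ℕ => s ^ j := summable_geometric_of_lt_one hs0.le hs2
  have hterm : ∀ k : ℕ, tk κ k / dk (k + 1) ≤ 262144 * M * s ^ k := by
    intro k
    rw [tk_div_dk, hs, mul_pow]
    have := mul_le_mul_of_nonneg_left (hle k) (by positivity : (0 : ℝ) ≤ 262144 ^ k)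
    calc 262144 * (262144 ^ k * Real.exp (-(κ * 4 ^ k))) ≤ 262144 * (262144 ^ k * (M * r ^ k)) :=
          mul_le_mul_of_nonneg_left this (by norm_num)
      _ = 262144 * M * (262144 ^ k * r ^ k) := by ring
  have hpos : ∀ k : ℕ, 0 ≤ tk κ k / dk (k + 1) := fun k => (div_pos (tk_pos κ k) (dk_pos _)).le
  have hb : ∀ k : ℕ, (2 * (Lk k : ℝ) + 1) * ∑' j, tk κ (k + j) / dk (k + j + 1) ≤
      (3 * (262144 * M) * ∑' j : ℕ, s ^ j) * (1 / 4) ^ k := by
    intro k
    have h1 : Summable fun j : ℕ => 262144 * M * s ^ (k + j) := by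
      simp_rw [pow_add]
      exact (hsum.mul_left _).mul_left _
    have h2 : Summable fun j : ℕ => tk κ (k + j) / dk (k + j + 1) :=
      Summable.of_nonneg_of_le (fun j => hpos (k + j)) (fun j => hterm (k + j)) h1
    have h3 : ∑' j : ℕ, tk κ (k + j) / dk (k + j + 1) ≤ ∑' j : ℕ, 262144 * M * s ^ (k + j) :=
      h2.tsum_le_tsum (fun j => hterm (k + j)) h1
    have h4 : ∑' j : ℕ, 262144 * M * s ^ (k + j) = 262144 * M * s ^ k * ∑' j : ℕ, s ^ j := by
      rw [← tsum_mul_left]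
      refine tsum_congr fun j => ?_
      rw [pow_add]
      ring
    have h5 : 0 ≤ ∑' j : ℕ, s ^ j := tsum_nonneg fun j => by positivity
    have h6 : 2 * (Lk k : ℝ) + 1 ≤ 3 * 16 ^ k := by
      unfold Lk
      push_cast
      have : (1 : ℝ) ≤ 16 ^ k := one_le_pow₀ (by norm_num)
      linarith
    have h7 : 0 ≤ ∑' j : ℕ, tk κ (k + j) / dk (k + j + 1) := tsum_nonneg fun j => hpos (k + j)
    calc (2 * (Lk k : ℝ) + 1) * ∑' j, tk κ (k + j) / dk (k + j + 1)
        ≤ (3 * 16 ^ k) * ∑' j, tk κ (k + j) / dk (k + j + 1) := mul_le_mul_of_nonneg_right h6 h7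
      _ ≤ (3 * 16 ^ k) * (262144 * M * s ^ k * ∑' j : ℕ, s ^ j) := by
          rw [← h4]
          exact mul_le_mul_of_nonneg_left h3 (by positivity)
      _ = (3 * (262144 * M) * ∑' j : ℕ, s ^ j) * (16 * s) ^ k := by
          have h8 : (16 * s) ^ k = 16 ^ k * s ^ k := mul_pow _ _ _
          rw [h8]
          ring
      _ ≤ (3 * (262144 * M) * ∑' j : ℕ, s ^ j) * (1 / 4) ^ k := by
          apply mul_le_mul_of_nonneg_left _ (by positivity)
          exact pow_le_pow_left₀ (by positivity) hs1 k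
  have h0 : ∀ k : ℕ, 0 ≤ (2 * (Lk k : ℝ) + 1) * ∑' j, tk κ (k + j) / dk (k + j + 1) := fun k =>
    mul_nonneg (by positivity) (tsum_nonneg fun j => hpos (k + j))
  have hlim := (tendsto_pow_atTop_nhds_zero_of_lt_one (by norm_num : (0 : ℝ) ≤ 1 / 4)
    (by norm_num)).const_mul (3 * (262144 * M) * ∑' j : ℕ, s ^ j)
  rw [mul_zero] at hlim
  exact squeeze_zero h0 hb hlim

/-- The bound of the first bad event. -/
noncomputable def p1 (c C R ε : ℝ) (k : ℕ) : ℝ :=
  C * R ^ 2 / (ek ε k ^ 3 * ak k ^ 2 * tk (c * ε ^ 2 / 2) k) * (1 - c * ek ε k ^ 2) ^ Lk k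

/-- The bound of the second bad event. -/
noncomputable def p2 (C ε : ℝ) (k : ℕ) : ℝ := C * ((Lk k : ℝ) + 1) ^ 4 * dk k / ek ε k

theorem summable_p1 (hN : TaskNum) {c C R ε : ℝ} (hc : 0 < c) (hc2 : c ≤ 1 / 2) (hC : 0 < C)
    (hε : 0 < ε) (hε1 : ε ≤ 1) : Summable (p1 c C R ε) := by
  have hκ : 0 < c * ε ^ 2 / 2 := by positivity
  have h1 := (hN (c * ε ^ 2 / 2) 8192 hκ (by norm_num)).1.mul_left (C * R ^ 2 / ε ^ 3)
  have hx : ∀ k, 0 ≤ 1 - c * ek ε k ^ 2 := by
    intro k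
    have h2 := ek_le_one hε hε1 k
    have h3 := (ek_pos hε k).le
    have h4 : ek ε k ^ 2 ≤ 1 := pow_le_one₀ h3 h2
    nlinarith
  refine Summable.of_nonneg_of_le (fun k => ?_) (fun k => ?_) h1
  · unfold p1
    have := ek_pos hε k
    have := ak_pos k
    have := tk_pos (c * ε ^ 2 / 2) k
    have := hx k
    positivity
  · have h2 : (1 - c * ek ε k ^ 2) ^ Lk k ≤ Real.exp (-(c * ε ^ 2 / 2 * 4 ^ k)) *
        Real.exp (-(c * ε ^ 2 / 2 * 4 ^ k)) := by
      have h3 : 1 - c * ek ε k ^ 2 ≤ Real.exp (-(c * ek ε k ^ 2)) := by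
        have := Real.add_one_le_exp (-(c * ek ε k ^ 2))
        linarith
      calc (1 - c * ek ε k ^ 2) ^ Lk k ≤ Real.exp (-(c * ek ε k ^ 2)) ^ Lk k :=
            pow_le_pow_left₀ (hx k) h3 _
        _ = Real.exp (-(c * ε ^ 2 / 2 * 4 ^ k)) * Real.exp (-(c * ε ^ 2 / 2 * 4 ^ k)) := by
            rw [← Real.exp_nat_mul, ← Real.exp_add]
            congr 1
            unfold Lk ek
            push_cast
            have h4 : (4 : ℝ) ^ k = 16 ^ k * ((1 / 2) ^ k) ^ 2 := by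
              rw [← pow_mul, mul_comm k 2, pow_mul, ← mul_pow]
              norm_num
            rw [h4, mul_pow]
            ring
    have h5 : C * R ^ 2 / (ek ε k ^ 3 * ak k ^ 2 * tk (c * ε ^ 2 / 2) k) =
        C * R ^ 2 / ε ^ 3 * 8192 ^ k / Real.exp (-(c * ε ^ 2 / 2 * 4 ^ k)) := by
      unfold ek ak tk
      have h6 : (8192 : ℝ) ^ k = 1 / (((1 / 2) ^ k) ^ 3 * ((1 / 32) ^ k) ^ 2) := by
        rw [← pow_mul, ← pow_mul, mul_comm k 3, mul_comm k 2, pow_mul, pow_mul, ← mul_pow,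
          ← one_div_pow]
        norm_num
      have hexp := Real.exp_pos (-(c * ε ^ 2 / 2 * 4 ^ k))
      rw [h6]
      field_simp
    unfold p1
    rw [h5]
    have hexp := Real.exp_pos (-(c * ε ^ 2 / 2 * 4 ^ k))
    have h7 : 0 ≤ C * R ^ 2 / ε ^ 3 * 8192 ^ k / Real.exp (-(c * ε ^ 2 / 2 * 4 ^ k)) := by
      positivity
    refine (mul_le_mul_of_nonneg_left h2 h7).trans (le_of_eq ?_)
    field_simp

theorem summable_p2 {C ε : ℝ} (hC : 0 < C) (hε : 0 < ε) : Summable (p2 C ε) := by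
  have h1 : Summable fun k : ℕ => (16 * C / ε) * (1 / 2 : ℝ) ^ k :=
    (summable_geometric_of_lt_one (by norm_num) (by norm_num)).mul_left _
  refine Summable.of_nonneg_of_le (fun k => ?_) (fun k => ?_) h1
  · unfold p2
    have := ek_pos hε k
    have := dk_pos k
    positivity
  · unfold p2
    have he := ek_pos hε k
    have hd := dk_pos k
    have h2 : ((Lk k : ℝ) + 1) ^ 4 ≤ 16 * 65536 ^ k := by
      unfold Lk
      push_cast
      have h3 : (1 : ℝ) ≤ 16 ^ k := one_le_pow₀ (by norm_num)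
      calc ((16 : ℝ) ^ k + 1) ^ 4 ≤ (2 * 16 ^ k) ^ 4 := pow_le_pow_left₀ (by positivity)
            (by linarith) 4
        _ = 16 * 65536 ^ k := by
            rw [mul_pow, ← pow_mul, mul_comm k 4, pow_mul]
            norm_num
    calc C * ((Lk k : ℝ) + 1) ^ 4 * dk k / ek ε k ≤ C * (16 * 65536 ^ k) * dk k / ek ε k := by
          gcongr
      _ = (16 * C / ε) * (1 / 2 : ℝ) ^ k := by
          unfold dk ek
          have h4 : (65536 : ℝ) ^ k * (1 / 262144) ^ k = (1 / 2) ^ k * (1 / 2) ^ k := by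
            rw [← mul_pow, ← mul_pow]
            norm_num
          rw [div_eq_iff (by positivity)]
          calc C * (16 * 65536 ^ k) * (1 / 262144) ^ k = 16 * C * (65536 ^ k * (1 / 262144) ^ k) := by
                ring
            _ = 16 * C / ε * (1 / 2) ^ k * (ε * (1 / 2) ^ k) := by
                rw [h4]
                field_simp

end Pool.Agent.W810.PP
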