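import Mathlib
import Pool.Agent.W810.PP.Numer
import Pool.Agent.W810.PP.LevelSp

/-!
The random potential of the assembly of S15671.
-/

set_option autoImplicit false

open scoped BigOperators ENNReal Topology
open MeasureTheory Filter
open Pool.Agent.H695R3.PP

namespace Pool.Agent.W810.PP

/-- Clipping to `[-1, 1]`. -/
noncomputable def clip (t : ℝ) : ℝ := max (-1) (min 1 t)

theorem continuous_clip : Continuous clip := by unfold clip; fun_prop

theorem abs_clip_le (t : ℝ) : |clip t| ≤ 1 := by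
  unfold clip
  rw [abs_le]
  exact ⟨le_max_left _ _, max_le (by norm_num) (min_le_left _ _)⟩

theorem clip_of_mem {t : ℝ} (h : t ∈ Set.Icc (-1 : ℝ) 1) : clip t = t := by
  unfold clip
  rw [min_eq_right h.2, max_eq_right h.1]

theorem clip_zero : clip 0 = 0 := clip_of_mem ⟨by norm_num, by norm_num⟩

theorem ae_U_mem : ∀ᵐ t ∂U, t ∈ Set.Icc (-1 : ℝ) 1 := by
  unfold U
  exact Measure.ae_smul_measure (ae_restrict_mem measurableSet_Icc) _

section

variable {Ω : Type} {Q : ℕ → Type} (q : ∀ k, Ω → Q k) (f0 : Ω → ℝ) (ε : ℝ)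

/-- The random potential. -/
noncomputable def pot (η : ∀ k, Q k → ℝ) (ω : Ω) : ℝ :=
  f0 ω + ∑' k, ek ε k * clip (η k (q k ω))

variable {ε} in
theorem term_le (hε : 0 < ε) (η : ∀ k, Q k → ℝ) (ω : Ω) (k : ℕ) :
    ‖ek ε k * clip (η k (q k ω))‖ ≤ ek ε k := by
  rw [Real.norm_eq_abs, abs_mul, abs_of_pos (ek_pos hε k)]
  have := abs_clip_le (η k (q k ω))
  have := ek_pos hε k
  nlinarith

variable {ε} in
theorem summable_term (hε : 0 < ε) (η : ∀ k, Q k → ℝ) (ω : Ω) :
    Summable fun k => ek ε k * clip (η k (q k ω)) :=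
  Summable.of_norm_bounded (summable_ek ε) fun k => term_le q hε η ω k

variable {ε} in
theorem abs_pot_sub_le (hε : 0 < ε) (η : ∀ k, Q k → ℝ) (ω : Ω) :
    |pot q f0 ε η ω - f0 ω| ≤ 2 * ε := by
  unfold pot
  rw [add_sub_cancel_left, ← Real.norm_eq_abs, ← tsum_ek ε]
  exact tsum_of_norm_bounded (summable_ek ε).hasSum fun k => term_le q hε η ω k

variable {ε} in
theorem pot_update (hε : 0 < ε) (η : ∀ k, Q k → ℝ) (k : ℕ) (ζ : Q k → ℝ) (ω : Ω) :
    pot q f0 ε (Function.update η k ζ) ω =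
      pot q f0 ε (Function.update η k 0) ω + ek ε k * clip (ζ (q k ω)) := by
  have h : ∑' j, ek ε j * clip (Function.update η k ζ j (q j ω)) -
      ∑' j, ek ε j * clip (Function.update η k (0 : Q k → ℝ) j (q j ω)) =
      ek ε k * clip (ζ (q k ω)) := by
    rw [← (summable_term q hε _ ω).tsum_sub (summable_term q hε _ ω), tsum_eq_single k]
    · rw [Function.update_self, Function.update_self, Pi.zero_apply, clip_zero]
      ring
    · intro j hj
      rw [Function.update_of_ne hj, Function.update_of_ne hj, sub_self]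
  unfold pot
  linarith

end

section

variable {Ω : Type} [TopologicalSpace Ω] [MeasurableSpace Ω] [BorelSpace Ω]
  {Q : ℕ → Type} [∀ k, Fintype (Q k)] (q : ∀ k, Ω → Q k) {ε : ℝ}

theorem continuous_pot (hε : 0 < ε) (hq : ∀ k, IsLocallyConstant (q k)) (f0 : Ω → ℝ)
    (hf0 : Continuous f0) (η : ∀ k, Q k → ℝ) : Continuous (pot q f0 ε η) := by
  unfold pot
  refine hf0.add (continuous_tsum (u := ek ε) (fun k => ?_) (summable_ek ε)
    fun k ω => term_le q hε η ω k)
  have h : IsLocallyConstant fun ω => η k (q k ω) := (hq k).comp (η k)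
  exact continuous_const.mul (continuous_clip.comp h.continuous)

theorem measurable_pot (hε : 0 < ε) (hq : ∀ k, IsLocallyConstant (q k)) (f0 : Ω → ℝ)
    (hf0 : Continuous f0) :
    Measurable fun z : (∀ k, Q k → ℝ) × Ω => pot q f0 ε z.1 z.2 := by
  unfold pot
  refine (hf0.measurable.comp measurable_snd).add ?_
  have hterm : ∀ k, Measurable fun z : (∀ k, Q k → ℝ) × Ω => ek ε k * clip (z.1 k (q k z.2)) := by
    intro k
    refine measurable_const.mul (continuous_clip.measurable.comp ?_)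
    let _ : MeasurableSpace (Q k) := ⊤
    have h1 : Measurable fun p : (Q k → ℝ) × Q k => p.1 p.2 :=
      measurable_from_prod_countable_left fun y => measurable_pi_apply y
    have h2 : Measurable (q k) := by
      intro s _
      exact ((hq k) s).measurableSet
    have h3 : Measurable fun z : (∀ k, Q k → ℝ) × Ω => z.1 k :=
      (measurable_pi_apply k).comp measurable_fst
    have h4 : Measurable fun z : (∀ k, Q k → ℝ) × Ω => q k z.2 := h2.comp measurable_snd
    exact h1.comp (h3.prodMk h4)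
  refine measurable_of_tendsto_metrizable
    (f := fun (N : ℕ) (z : (∀ k, Q k → ℝ) × Ω) => ∑ k ∈ Finset.range N,
      ek ε k * clip (z.1 k (q k z.2))) (fun N => ?_) ?_
  · exact Finset.measurable_fun_sum _ fun k _ => hterm k
  · rw [tendsto_pi_nhds]
    intro z
    exact (summable_term q hε z.1 z.2).hasSum.tendsto_sum_nat

/-- The law of the random variables. -/
noncomputable def PQ (Q : ℕ → Type) [∀ k, Fintype (Q k)] : Measure (∀ k, Q k → ℝ) :=
  Measure.infinitePi fun k => Measure.pi fun _ : Q k => U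

instance : IsProbabilityMeasure (PQ Q) := by unfold PQ; infer_instance

/-- The event depends on the window only. -/
def Win (L : ℕ) (B : Set (ℤ → ℝ)) : Prop :=
  ∀ V V' : ℤ → ℝ, (∀ n, -(L : ℤ) ≤ n → n ≤ L → V n = V' n) → (V ∈ B ↔ V' ∈ B)

theorem win_bad1 (L : ℕ) (a τ : ℝ) : Win L {V | Bad1 L a τ V} := by
  have h : ∀ V V' : ℤ → ℝ, (∀ n, -(L : ℤ) ≤ n → n ≤ L → V n = V' n) → Bad1 L a τ V →
      Bad1 L a τ V' := by
    rintro V V' h ⟨E, ψ, h1, h2, h3⟩
    exact ⟨E, ψ, isEig_congr h h1, h2, h3⟩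
  intro V V' hV
  exact ⟨h V V' hV, h V' V fun n h1 h2 => (hV n h1 h2).symm⟩

theorem win_bad2 (L : ℕ) (d : ℝ) : Win L {V | Bad2 L d V} := by
  have h : ∀ V V' : ℤ → ℝ, (∀ n, -(L : ℤ) ≤ n → n ≤ L → V n = V' n) → Bad2 L d V →
      Bad2 L d V' := by
    rintro V V' h ⟨E, ψ, E', ψ', h1, h2, h3⟩
    exact ⟨E, ψ, E', ψ', isEig_congr h h1, isEig_congr h h2, h3⟩
  intro V V' hV
  exact ⟨h V V' hV, h V' V fun n h1 h2 => (hV n h1 h2).symm⟩

theorem pi_clip {Q : Type} [Fintype Q] (q : ℤ → Q) (W : ℤ → ℝ) (e : ℝ) (B : Set (ℤ → ℝ)) :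
    Measure.pi (fun _ : Q => U) {η | (fun n => W n + e * clip (η (q n))) ∈ B} =
      Measure.pi (fun _ : Q => U) {η | (fun n => W n + e * η (q n)) ∈ B} := by
  apply measure_congr
  have h : ∀ᵐ η ∂(Measure.pi (fun _ : Q => U)), ∀ i, η i ∈ Set.Icc (-1 : ℝ) 1 := by
    rw [ae_all_iff]
    intro i
    exact (measurePreserving_eval (fun _ : Q => U) i).quasiMeasurePreserving.ae ae_U_mem
  filter_upwards [h] with η hη
  apply propext
  show (fun n => W n + e * clip (η (q n))) ∈ B ↔ (fun n => W n + e * η (q n)) ∈ B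
  have : (fun n => W n + e * clip (η (q n))) = fun n => W n + e * η (q n) := by
    funext n
    rw [clip_of_mem (hη (q n))]
  rw [this]

variable [AddCommGroup Ω] [IsTopologicalAddGroup Ω] (α : Ω)

theorem prob_le (hTr : TaskTransfer) (hR : TaskResample) (hε : 0 < ε)
    (hq : ∀ k, IsLocallyConstant (q k)) (f0 : Ω → ℝ) (hf0 : Continuous f0) (k L : ℕ) (ω : Ω)
    (hinj : Set.InjOn (fun n : ℤ => q k (ω + n • α)) (Set.Icc (-(L : ℤ)) L)) (B : Set (ℤ → ℝ))
    (hB : MeasurableSet B) (hw : Win L B) (p : ℝ≥0∞) (R : ℝ) (hR0 : ∀ ω, |f0 ω| + 2 * ε ≤ R)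
    (hp : ∀ W : ℤ → ℝ, (∀ n, |W n| ≤ R) → PZ {x | (fun n => W n + ek ε k * x n) ∈ B} ≤ p) :
    PQ Q {η | (fun n : ℤ => pot q f0 ε η (ω + n • α)) ∈ B} ≤ p := by
  have hmeas : MeasurableSet {η : ∀ k, Q k → ℝ |
      (fun n : ℤ => pot q f0 ε η (ω + n • α)) ∈ B} := by
    have h1 : Measurable fun η : ∀ k, Q k → ℝ => (fun n : ℤ => pot q f0 ε η (ω + n • α)) := by
      apply measurable_pi_lambda
      intro n
      exact (measurable_pot q hε hq f0 hf0).comp measurable_prodMk_right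
    exact h1 hB
  have hupd : Measurable fun p : (∀ j, Q j → ℝ) × (Q k → ℝ) => Function.update p.1 k p.2 := by
    refine measurable_pi_lambda _ fun j => ?_
    by_cases hj : j = k
    · subst hj
      simp only [Function.update_self]
      exact measurable_snd
    · simp only [Function.update_of_ne hj]
      exact (measurable_pi_apply j).comp measurable_fst
  have h0 := hR ℕ (fun k => Q k → ℝ) (fun k => Measure.pi fun _ : Q k => U) k
  unfold PQ
  rw [← h0, Measure.map_apply hupd hmeas, Measure.prod_apply (hupd hmeas)]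
  have h1 : ∀ η : ∀ j, Q j → ℝ, Measure.pi (fun _ : Q k => U) (Prod.mk η ⁻¹'
      ((fun p : (∀ j, Q j → ℝ) × (Q k → ℝ) => Function.update p.1 k p.2) ⁻¹'
        {η : ∀ k, Q k → ℝ | (fun n : ℤ => pot q f0 ε η (ω + n • α)) ∈ B})) ≤ p := by
    intro η
    have h2 : (Prod.mk η ⁻¹'
      ((fun p : (∀ j, Q j → ℝ) × (Q k → ℝ) => Function.update p.1 k p.2) ⁻¹'
        {η : ∀ k, Q k → ℝ | (fun n : ℤ => pot q f0 ε η (ω + n • α)) ∈ B})) =
        {ζ : Q k → ℝ | (fun n : ℤ => pot q f0 ε (Function.update η k 0) (ω + n • α) +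
          ek ε k * clip (ζ (q k (ω + n • α)))) ∈ B} := by
      ext ζ
      simp only [Set.mem_preimage, Set.mem_ofPred_eq]
      simp_rw [pot_update q f0 hε η k ζ]
    rw [h2, pi_clip (fun n : ℤ => q k (ω + n • α))
      (fun n : ℤ => pot q f0 ε (Function.update η k 0) (ω + n • α)),
      hTr (Q k) (fun n : ℤ => q k (ω + n • α)) L _ _ B hinj hB hw]
    apply hp
    intro n
    have h3 := abs_pot_sub_le q f0 hε (Function.update η k 0) (ω + n • α)
    have h4 := hR0 (ω + n • α)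
    have h5 := abs_sub_abs_le_abs_sub (pot q f0 ε (Function.update η k 0) (ω + n • α))
      (f0 (ω + n • α))
    linarith
  calc ∫⁻ η, Measure.pi (fun _ : Q k => U) (Prod.mk η ⁻¹'
      ((fun p : (∀ j, Q j → ℝ) × (Q k → ℝ) => Function.update p.1 k p.2) ⁻¹'
        {η : ∀ k, Q k → ℝ | (fun n : ℤ => pot q f0 ε η (ω + n • α)) ∈ B}))
        ∂(Measure.infinitePi fun k => Measure.pi fun _ : Q k => U)
      ≤ ∫⁻ _η, p ∂(Measure.infinitePi fun k => Measure.pi fun _ : Q k => U) := lintegral_mono h1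
    _ = p := by rw [lintegral_const, measure_univ, mul_one]

theorem prod_le (μ : Measure Ω) [IsFiniteMeasure μ] (hTr : TaskTransfer) (hR : TaskResample)
    (hε : 0 < ε)
    (hq : ∀ k, IsLocallyConstant (q k)) (f0 : Ω → ℝ) (hf0 : Continuous f0) (k L : ℕ)
    (hinj : ∀ ω, Set.InjOn (fun n : ℤ => q k (ω + n • α)) (Set.Icc (-(L : ℤ)) L))
    (B : Set (ℤ → ℝ))
    (hB : MeasurableSet B) (hw : Win L B) (p : ℝ≥0∞) (R : ℝ) (hR0 : ∀ ω, |f0 ω| + 2 * ε ≤ R)
    (hp : ∀ W : ℤ → ℝ, (∀ n, |W n| ≤ R) → PZ {x | (fun n => W n + ek ε k * x n) ∈ B} ≤ p)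
    (m : ℤ) :
    ((PQ Q).prod μ) {z | (fun n : ℤ => pot q f0 ε z.1 (z.2 + (m + n) • α)) ∈ B} ≤
      p * μ Set.univ := by
  have hmeas : MeasurableSet {z : (∀ k, Q k → ℝ) × Ω |
      (fun n : ℤ => pot q f0 ε z.1 (z.2 + (m + n) • α)) ∈ B} := by
    have h1 : Measurable fun z : (∀ k, Q k → ℝ) × Ω =>
        (fun n : ℤ => pot q f0 ε z.1 (z.2 + (m + n) • α)) := by
      apply measurable_pi_lambda
      intro n
      refine (measurable_pot q hε hq f0 hf0).comp (measurable_fst.prodMk ?_)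
      have : Continuous fun ω : Ω => ω + (m + n) • α := by fun_prop
      exact this.measurable.comp measurable_snd
    exact h1 hB
  rw [Measure.prod_apply_symm hmeas]
  calc ∫⁻ ω, PQ Q ((fun η => (η, ω)) ⁻¹' {z : (∀ k, Q k → ℝ) × Ω |
      (fun n : ℤ => pot q f0 ε z.1 (z.2 + (m + n) • α)) ∈ B}) ∂μ ≤ ∫⁻ _ω, p ∂μ := by
        apply lintegral_mono
        intro ω
        have h := prob_le q α hTr hR hε hq f0 hf0 k L (ω + m • α) (hinj _) B hB hw p R hR0 hp
        refine le_trans (le_of_eq ?_) h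
        have h2 : ((fun η => (η, ω)) ⁻¹' {z : (∀ k, Q k → ℝ) × Ω |
            (fun n : ℤ => pot q f0 ε z.1 (z.2 + (m + n) • α)) ∈ B}) =
            {η | (fun n : ℤ => pot q f0 ε η (ω + m • α + n • α)) ∈ B} := by
          ext η
          simp only [Set.mem_preimage, Set.mem_ofPred_eq]
          simp_rw [add_smul, add_assoc]
        show PQ Q ((fun η => (η, ω)) ⁻¹' {z : (∀ k, Q k → ℝ) × Ω |
            (fun n : ℤ => pot q f0 ε z.1 (z.2 + (m + n) • α)) ∈ B}) = _
        rw [h2]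
    _ = p * μ Set.univ := by rw [lintegral_const]

end

end Pool.Agent.W810.PP
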