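import Mathlib
import Pool.Agent.W810.PP.Pot

/-!
The assembly of S15671 from the tasks of the plan `H695R3/PP/Stmts`.
-/

set_option autoImplicit false

open scoped BigOperators ENNReal Topology
open MeasureTheory Filter
open Pool.Agent.H695R3.PP

namespace Pool.Agent.W810.PP

/-- Almost surely the bad events stop, hence the eigenvectors are complete. -/
theorem exists_good {Ω : Type} [TopologicalSpace Ω] [MeasurableSpace Ω] [BorelSpace Ω]
    [AddCommGroup Ω] [IsTopologicalAddGroup Ω] {Q : ℕ → Type} [∀ k, Fintype (Q k)]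
    (q : ∀ k, Ω → Q k) {ε : ℝ} (α : Ω) (μ : Measure Ω) [IsFiniteMeasure μ]
    (hG1 : TaskG1) (hG2 : TaskG2) (hM : TaskMeas) (hD : TaskDelta) (hT : TaskTop)
    (hR : TaskResample) (hTr : TaskTransfer) (hN : TaskNum)
    (hε : 0 < ε) (hε1 : ε ≤ 1) (hq : ∀ k, IsLocallyConstant (q k)) (f0 : Ω → ℝ)
    (hf0 : Continuous f0) (R : ℝ) (hR1 : 1 ≤ R) (hR0 : ∀ ω, |f0 ω| + 2 * ε ≤ R)
    (hinj : ∀ k ω, Set.InjOn (fun n : ℤ => q k (ω + n • α)) (Set.Icc (-(Lk k : ℤ)) (Lk k))) :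
    ∃ η : ∀ k, Q k → ℝ, ∀ᵐ ω ∂μ,
      (EigSpan fun n : ℤ => pot q f0 ε η (ω + n • α)).topologicalClosure = ⊤ := by
  obtain ⟨c, C, hc, hc2, hC, h1⟩ := hG1
  obtain ⟨C', hC', h2⟩ := hG2
  have hκ : 0 < c * ε ^ 2 / 2 := by positivity
  -- the first bad event
  have hbad1 : ∀ m : ℤ, ∀ᵐ z ∂((PQ Q).prod μ), ∀ᶠ k in atTop,
      ¬ Bad1 (Lk k) (ak k) (tk (c * ε ^ 2 / 2) k)
        (fun n : ℤ => pot q f0 ε z.1 (z.2 + (m + n) • α)) := by
    intro m
    have h3 : ∀ k, ((PQ Q).prod μ) {z | (fun n : ℤ => pot q f0 ε z.1 (z.2 + (m + n) • α)) ∈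
        {V : ℤ → ℝ | Bad1 (Lk k) (ak k) (tk (c * ε ^ 2 / 2) k) V}} ≤
        ENNReal.ofReal (p1 c C R ε k) * μ Set.univ := by
      intro k
      refine prod_le q α μ hTr hR hε hq f0 hf0 k (Lk k) (hinj k) _ (hM.1 _ _ _)
        (win_bad1 _ _ _) _ R hR0 ?_ m
      intro W hW
      exact h1 (ek ε k) R (ak k) (tk (c * ε ^ 2 / 2) k) W (Lk k) (ek_pos hε k)
        (ek_le_one hε hε1 k) hR1 hW (ak_pos k) (tk_pos _ k) (Lk_pos k)
    have h4 : ∑' k, ((PQ Q).prod μ) {z | (fun n : ℤ => pot q f0 ε z.1 (z.2 + (m + n) • α)) ∈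
        {V : ℤ → ℝ | Bad1 (Lk k) (ak k) (tk (c * ε ^ 2 / 2) k) V}} ≠ ∞ := by
      refine ne_top_of_le_ne_top ?_ (ENNReal.tsum_le_tsum h3)
      rw [ENNReal.tsum_mul_right]
      exact ENNReal.mul_ne_top (summable_p1 hN hc hc2 hC hε hε1).tsum_ofReal_ne_top
        (measure_ne_top μ _)
    exact ae_eventually_notMem h4
  -- the second bad event
  have hbad2 : ∀ m : ℤ, ∀ᵐ z ∂((PQ Q).prod μ), ∀ᶠ k in atTop,
      ¬ Bad2 (Lk (k + 1)) (dk (k + 1))
        (fun n : ℤ => pot q f0 ε z.1 (z.2 + (m + n) • α)) := by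
    intro m
    have h3 : ∀ k, ((PQ Q).prod μ) {z | (fun n : ℤ => pot q f0 ε z.1 (z.2 + (m + n) • α)) ∈
        {V : ℤ → ℝ | Bad2 (Lk (k + 1)) (dk (k + 1)) V}} ≤
        ENNReal.ofReal (p2 C' ε (k + 1)) * μ Set.univ := by
      intro k
      refine prod_le q α μ hTr hR hε hq f0 hf0 (k + 1) (Lk (k + 1)) (hinj (k + 1)) _ (hM.2 _ _)
        (win_bad2 _ _) _ R hR0 ?_ m
      intro W _
      exact h2 (ek ε (k + 1)) (dk (k + 1)) W (Lk (k + 1)) (ek_pos hε _) (dk_pos _)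
    have h4 : ∑' k, ((PQ Q).prod μ) {z | (fun n : ℤ => pot q f0 ε z.1 (z.2 + (m + n) • α)) ∈
        {V : ℤ → ℝ | Bad2 (Lk (k + 1)) (dk (k + 1)) V}} ≠ ∞ := by
      refine ne_top_of_le_ne_top ?_ (ENNReal.tsum_le_tsum h3)
      rw [ENNReal.tsum_mul_right]
      have h5 : Summable fun k => p2 C' ε (k + 1) :=
        (summable_nat_add_iff 1).mpr (summable_p2 hC' hε)
      exact ENNReal.mul_ne_top h5.tsum_ofReal_ne_top (measure_ne_top μ _)
    exact ae_eventually_notMem h4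
  have hall : ∀ᵐ z ∂((PQ Q).prod μ), ∀ m : ℤ,
      (∀ᶠ k in atTop, ¬ Bad1 (Lk k) (ak k) (tk (c * ε ^ 2 / 2) k)
        (fun n : ℤ => pot q f0 ε z.1 (z.2 + (m + n) • α))) ∧
      (∀ᶠ k in atTop, ¬ Bad2 (Lk (k + 1)) (dk (k + 1))
        (fun n : ℤ => pot q f0 ε z.1 (z.2 + (m + n) • α))) := by
    rw [ae_all_iff]
    intro m
    exact (hbad1 m).and (hbad2 m)
  have hfub := Measure.ae_ae_of_ae_prod hall
  obtain ⟨η, hη⟩ := hfub.exists
  refine ⟨η, hη.mono fun ω hω => ?_⟩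
  apply hT
  intro m
  exact hD (fun n : ℤ => pot q f0 ε η (ω + (m + n) • α)) Lk ak (tk (c * ε ^ 2 / 2)) dk
    Lk_strictMono (fun k => ⟨ak_pos k, tk_pos _ k, dk_pos k⟩) (hω m).1 (hω m).2
    (num_cond3 hN hκ) (num_cond4 hN hκ) (num_cond5 hN hκ) (num_cond6 hN hκ) num_cond7
    (num_cond8 hκ)

/-- The statement of S15671. -/
theorem assemble (hG1 : TaskG1) (hG2 : TaskG2) (hM : TaskMeas) (hD : TaskDelta) (hT : TaskTop)
    (hR : TaskResample) (hTr : TaskTransfer) (hGr : TaskGroup) (hN : TaskNum)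
    (Ω : Type) [AddCommGroup Ω] [TopologicalSpace Ω] [IsTopologicalAddGroup Ω]
    [CompactSpace Ω] [T2Space Ω] [TotallyDisconnectedSpace Ω] [Infinite Ω]
    [MeasurableSpace Ω] [BorelSpace Ω] (μ : Measure Ω) [IsFiniteMeasure μ] (α : Ω)
    (hα : Dense (Set.range (fun n : ℤ => n • α))) :
    Dense {f : C(Ω, ℝ) | ∀ᵐ ω ∂μ,
      (EigSpan fun n : ℤ => f (ω + n • α)).topologicalClosure = ⊤} := by
  classical
  rw [Metric.dense_iff]
  intro f0 r hr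
  set ε : ℝ := min (r / 4) 1 with hε
  have hε0 : 0 < ε := lt_min (by linarith) one_pos
  have hε1 : ε ≤ 1 := min_le_right _ _
  have hεr : ε ≤ r / 4 := min_le_left _ _
  choose H hH1 hH2 hH3 using fun k : ℕ => hGr Ω α hα (2 * Lk k)
  haveI : ∀ k, Fintype (Ω ⧸ H k) := fun k => Fintype.ofFinite _
  let q : ∀ k, Ω → Ω ⧸ H k := fun k ω => (QuotientAddGroup.mk ω : Ω ⧸ H k)
  have hq : ∀ k, IsLocallyConstant (q k) := by
    intro k
    haveI : DiscreteTopology (Ω ⧸ H k) := QuotientAddGroup.discreteTopology (hH1 k)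
    exact (IsLocallyConstant.iff_continuous _).mpr continuous_quotient_mk'
  have hinj : ∀ k ω, Set.InjOn (fun n : ℤ => q k (ω + n • α))
      (Set.Icc (-(Lk k : ℤ)) (Lk k)) := by
    intro k ω i hi j hj hij
    by_contra hne
    have h1 : (QuotientAddGroup.mk (ω + i • α) : Ω ⧸ H k) = QuotientAddGroup.mk (ω + j • α) := hij
    rw [QuotientAddGroup.eq] at h1
    have h2 : -(ω + i • α) + (ω + j • α) = (j - i) • α := by
      rw [sub_smul]
      abel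
    rw [h2] at h1
    refine hH3 k (j - i) (by omega) ?_ h1
    rw [abs_le]
    push_cast
    constructor <;> linarith [hi.1, hi.2, hj.1, hj.2]
  obtain ⟨R, hR1, hR0⟩ : ∃ R : ℝ, 1 ≤ R ∧ ∀ ω, |f0 ω| + 2 * ε ≤ R := by
    refine ⟨‖f0‖ + 2 * ε + 1, ?_, ?_⟩
    · have := norm_nonneg f0
      linarith
    · intro ω
      have := f0.norm_coe_le_norm ω
      rw [Real.norm_eq_abs] at this
      linarith
  obtain ⟨η, hη⟩ := exists_good q α μ hG1 hG2 hM hD hT hR hTr hN hε0 hε1 hq f0 f0.continuous R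
    hR1 hR0 hinj
  refine ⟨⟨pot q f0 ε η, continuous_pot q hε0 hq f0 f0.continuous η⟩, ?_, hη⟩
  rw [Metric.mem_ball, ContinuousMap.dist_lt_iff hr]
  intro ω
  rw [Real.dist_eq]
  have := abs_pot_sub_le q f0 hε0 η ω
  show |pot q f0 ε η ω - f0 ω| < r
  linarith

end Pool.Agent.W810.PP
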