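import Pool.Agent.W810.PP.Split
import Pool.Agent.Helper434.PSCplx

set_option autoImplicit false

namespace Pool.Agent.W810.PP

open Pool.Agent.H695R3.PP Filter Topology

/-- real square summable sequences -/
abbrev R2 : Type := lp (fun _ : ℤ => ℝ) 2

lemma R2_hasSum (x : R2) : HasSum (fun n => x n ^ 2) (‖x‖ ^ 2) := by
  have h := lp.hasSum_norm two_pos x
  have h2 : (2 : ENNReal).toReal = ((2 : ℕ) : ℝ) := by norm_num
  simpa only [h2, Real.rpow_natCast, Real.norm_eq_abs, sq_abs] using h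

lemma mem_R2 {f : ℤ → ℝ} (hf : Summable fun n => f n ^ 2) :
    Memℓp (E := fun _ : ℤ => ℝ) f 2 := by
  apply memℓp_gen
  have h2 : (2 : ENNReal).toReal = ((2 : ℕ) : ℝ) := by norm_num
  simpa only [h2, Real.rpow_natCast, Real.norm_eq_abs, sq_abs] using hf

lemma summ_fin {f : ℤ → ℝ} {a b : ℤ} (hf : ∀ n, n < a ∨ b < n → f n = 0) :
    Summable fun n => f n ^ 2 := by
  apply summable_of_ne_finset_zero (s := Finset.Icc a b)
  intro n hn
  rw [Finset.mem_Icc] at hn
  rw [hf n (by omega)]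
  norm_num

lemma tsum_fin {f : ℤ → ℝ} {a b : ℤ} (hf : ∀ n, n < a ∨ b < n → f n = 0) :
    ∑' n, f n ^ 2 = ∑ n ∈ Finset.Icc a b, f n ^ 2 := by
  apply tsum_eq_sum
  intro n hn
  rw [Finset.mem_Icc] at hn
  rw [hf n (by omega)]
  norm_num

theorem taskChain : TaskChain := by
  intro V L a τ d k₀ hL hpos hB1 hB2 hτd ha hs1 hs2 E ψ hψ ha0
  -- the chain
  let P : ℕ → ℝ × (ℤ → ℝ) → Prop := fun j s =>
    IsEig V (-(L (k₀ + j) : ℤ)) (L (k₀ + j)) s.1 s.2 ∧ a (k₀ + j) ≤ |s.2 0|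
  have hstep : ∀ j (s : {s // P j s}), ∃ s' : {s' // P (j + 1) s'},
      |s'.1.1 - s.1.1| ≤ 2 * τ (k₀ + j) ∧
      ∑ n ∈ Finset.Icc (-(L (k₀ + (j + 1)) : ℤ)) (L (k₀ + (j + 1))), (s.1.2 n - s'.1.2 n) ^ 2 ≤
        (4 * τ (k₀ + j) / d (k₀ + j + 1)) ^ 2 := by
    rintro j ⟨s, hs, hs0⟩
    obtain ⟨h1, h2, h3⟩ := hpos (k₀ + j)
    have hd1 := (hpos (k₀ + j + 1)).2.2
    have hb1 := hB1 (k₀ + j) (by omega)
    have hb2 := hB2 (k₀ + j) (by omega)
    have hend : |s.2 (L (k₀ + j))| ≤ τ (k₀ + j) ∧ |s.2 (-(L (k₀ + j) : ℤ))| ≤ τ (k₀ + j) := by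
      constructor
      · by_contra hc
        push Not at hc
        exact hb1 ⟨s.1, s.2, hs, hs0, Or.inl hc.le⟩
      · by_contra hc
        push Not at hc
        exact hb1 ⟨s.1, s.2, hs, hs0, Or.inr hc.le⟩
    obtain ⟨E', φ, hφ, hE', hsum⟩ := taskStep V (L (k₀ + j)) (L (k₀ + j + 1)) s.1 (τ (k₀ + j))
      (d (k₀ + j + 1)) s.2 (hL (Nat.lt_succ_self _)) h2 (hτd (k₀ + j) (by omega)) hb2 hs hend.1
      hend.2
    have hval : (s.2 0 - φ 0) ^ 2 ≤ (4 * τ (k₀ + j) / d (k₀ + j + 1)) ^ 2 := by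
      refine le_trans ?_ hsum
      exact Finset.single_le_sum (f := fun n => (s.2 n - φ n) ^ 2) (fun n _ => sq_nonneg _)
        (Finset.mem_Icc.2 ⟨by omega, by omega⟩)
    have hval2 : |s.2 0 - φ 0| ≤ 4 * τ (k₀ + j) / d (k₀ + j + 1) := by
      rw [← sq_abs] at hval
      exact le_of_sq_le_sq hval (by positivity)
    refine ⟨⟨(E', φ), hφ, ?_⟩, hE', hsum⟩
    have h4 := ha (k₀ + j) (by omega)
    have h5 := abs_sub_abs_le_abs_sub (s.2 0) (φ 0)
    show a (k₀ + j + 1) ≤ |φ 0|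
    linarith
  choose next hnext using hstep
  let f : (j : ℕ) → {s // P j s} := fun j => Nat.rec ⟨(E, ψ), hψ, ha0⟩ (fun j s => next j s) j
  have hf : ∀ j, f (j + 1) = next j (f j) := fun j => rfl
  have hf0 : (f 0).1 = (E, ψ) := rfl
  have hE : ∀ j, |(f (j + 1)).1.1 - (f j).1.1| ≤ 2 * τ (k₀ + j) := by
    intro j
    rw [hf]
    exact (hnext j (f j)).1
  have hsum : ∀ j, ∑ n ∈ Finset.Icc (-(L (k₀ + (j + 1)) : ℤ)) (L (k₀ + (j + 1))),
      ((f j).1.2 n - (f (j + 1)).1.2 n) ^ 2 ≤ (4 * τ (k₀ + j) / d (k₀ + j + 1)) ^ 2 := by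
    intro j
    rw [hf]
    exact (hnext j (f j)).2
  have hmem : ∀ j, Memℓp (E := fun _ : ℤ => ℝ) (f j).1.2 2 := fun j =>
    mem_R2 (summ_fin (f j).2.1.1)
  let x : ℕ → R2 := fun j => ⟨(f j).1.2, hmem j⟩
  have hx : ∀ j n, x j n = (f j).1.2 n := fun j n => rfl
  have hdist : ∀ j, dist (x j) (x (j + 1)) ≤ 4 * τ (k₀ + j) / d (k₀ + j + 1) := by
    intro j
    have hp := hpos (k₀ + j)
    have hp' := hpos (k₀ + j + 1)
    rw [dist_eq_norm]
    have hτ0 := hp.2.1
    have hd0 := hp'.2.2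
    apply le_of_sq_le_sq _ (by positivity)
    have h1 := R2_hasSum (x j - x (j + 1))
    rw [← h1.tsum_eq]
    have h2 : ∀ n, (x j - x (j + 1)) n = (f j).1.2 n - (f (j + 1)).1.2 n := fun n => rfl
    simp only [h2]
    rw [tsum_fin (f := fun n => (f j).1.2 n - (f (j + 1)).1.2 n)
      (a := -(L (k₀ + (j + 1)) : ℤ)) (b := L (k₀ + (j + 1)))]
    · exact hsum j
    · intro n hn
      have hlt : L (k₀ + j) < L (k₀ + (j + 1)) := hL (by omega)
      rw [(f j).2.1.1 n (by omega), (f (j + 1)).2.1.1 n hn, sub_zero]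
  have hs1' : Summable (fun j => 4 * τ (k₀ + j) / d (k₀ + j + 1)) := by
    have h1 : Summable (fun j => τ (j + k₀) / d (j + k₀ + 1)) :=
      (summable_nat_add_iff (f := fun k => τ k / d (k + 1)) k₀).2 hs1
    refine (h1.mul_left 4).congr fun j => ?_
    rw [add_comm j k₀]
    ring
  have hcx : CauchySeq x := cauchySeq_of_dist_le_of_summable _ hdist hs1'
  obtain ⟨φ, hφ⟩ := cauchySeq_tendsto_of_complete hcx
  have hcE : CauchySeq (fun j => (f j).1.1) := by
    have h1 : Summable (fun j => 2 * τ (k₀ + j)) := by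
      have h1 : Summable (fun j => τ (j + k₀)) := (summable_nat_add_iff (f := τ) k₀).2 hs2
      refine (h1.mul_left 2).congr fun j => ?_
      rw [add_comm j k₀]
    refine cauchySeq_of_dist_le_of_summable _ (fun j => ?_) h1
    rw [Real.dist_eq, abs_sub_comm]
    exact hE j
  obtain ⟨e, he⟩ := cauchySeq_tendsto_of_complete hcE
  have hpt : ∀ n, Tendsto (fun j => x j n) atTop (𝓝 (φ n)) := by
    intro n
    rw [tendsto_iff_dist_tendsto_zero] at hφ ⊢
    refine squeeze_zero (fun _ => dist_nonneg) (fun j => ?_) hφ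
    rw [dist_eq_norm, dist_eq_norm]
    exact lp.norm_apply_le_norm two_ne_zero (x j - φ) n
  refine ⟨e, fun n => φ n, (R2_hasSum φ).summable, ?_, ?_, ?_⟩
  · intro n
    have h1 := (((hpt (n + 1)).add (hpt (n - 1))).add ((hpt n).const_mul (V n)))
    have h2 := he.mul (hpt n)
    refine tendsto_nhds_unique_of_eventuallyEq h1 h2 ?_
    filter_upwards [eventually_ge_atTop n.natAbs] with j hj
    have h3 : j ≤ L (k₀ + j) := (Nat.le_add_left j k₀).trans (hL.id_le _)
    exact (f j).2.1.2.2 n (by omega) (by omega)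
  · have h1 := (R2_hasSum (x 0 - φ)).summable
    exact h1
  · have h1 := (R2_hasSum (x 0 - φ)).tsum_eq
    have h2 : ∑' n, (ψ n - φ n) ^ 2 = ‖x 0 - φ‖ ^ 2 := h1
    rw [h2]
    have h3 := dist_le_tsum_of_dist_le_of_tendsto₀ _ hdist hs1' hφ
    rw [dist_eq_norm] at h3
    have h4 : ∑' j, 4 * τ (k₀ + j) / d (k₀ + j + 1) = 4 * ∑' j, τ (k₀ + j) / d (k₀ + j + 1) := by
      rw [← tsum_mul_left]
      refine tsum_congr fun j => ?_
      ring
    rw [h4] at h3
    exact pow_le_pow_left₀ (norm_nonneg _) h3 2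

open Pool.Agent.Helper434.PSCplx

lemma mem_L2 {f : ℤ → ℝ} (hf : Summable fun n => f n ^ 2) :
    Memℓp (E := fun _ : ℤ => ℂ) (fun n => (f n : ℂ)) 2 := by
  apply memℓp_gen
  have h2 : (2 : ENNReal).toReal = ((2 : ℕ) : ℝ) := by norm_num
  simpa only [h2, Real.rpow_natCast, Complex.norm_real, Real.norm_eq_abs, sq_abs] using hf

lemma norm_L2 (ψ : L2) (f : ℤ → ℝ) (h : ∀ n, ψ n = (f n : ℂ)) : ‖ψ‖ ^ 2 = ∑' n, f n ^ 2 := by
  have h1 := lp.hasSum_norm two_pos ψ
  have h2 : (2 : ENNReal).toReal = ((2 : ℕ) : ℝ) := by norm_num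
  simp only [h2, Real.rpow_natCast, h, Complex.norm_real, Real.norm_eq_abs, sq_abs] at h1
  exact h1.tsum_eq.symm

theorem taskDelta : TaskDelta := by
  intro V L a τ d hL hpos hB1 hB2 hτd ha hs1 hs2 hl1 hl2
  obtain ⟨K, hK⟩ : ∃ K : ℕ, ∀ k, K ≤ k → ¬ Bad1 (L k) (a k) (τ k) V ∧
      ¬ Bad2 (L (k + 1)) (d (k + 1)) V ∧ 4 * τ k ≤ d (k + 1) ∧
      a (k + 1) + 4 * τ k / d (k + 1) ≤ a k :=
    eventually_atTop.1 (hB1.and (hB2.and (hτd.and ha)))
  set D : ℕ → ℝ := fun k => ∑' j, τ (k + j) / d (k + j + 1) with hD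
  have hD0 : ∀ k, 0 ≤ D k := fun k => tsum_nonneg fun j => by
    have h1 := (hpos (k + j)).2.1
    have h2 := (hpos (k + j + 1)).2.2
    positivity
  have key : ∀ k, K ≤ k → ∃ y ∈ EigSpan V, ‖(lp.single 2 (0 : ℤ) (1 : ℂ) : L2) - y‖ ≤
      (2 * (L k : ℝ) + 1) * (4 * D k) + Real.sqrt ((2 * (L k : ℝ) + 1) * a k ^ 2) := by
    intro k hk
    obtain ⟨e, ψ, hψ, hδ, hpar⟩ := taskCompl V (L k)
    have hle1 : ∀ j, |ψ j 0| ≤ 1 := by
      intro j
      have h1 := (hψ j).2.1
      have h2 : (ψ j 0) ^ 2 ≤ 1 := by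
        rw [← h1, nsq]
        exact Finset.single_le_sum (f := fun n => ψ j n ^ 2) (fun n _ => sq_nonneg _)
          (Finset.mem_Icc.2 ⟨by omega, by omega⟩)
      rw [← sq_abs] at h2
      have := abs_nonneg (ψ j 0)
      nlinarith
    have hex : ∀ j, ∃ φ : L2, φ ∈ EigSpan V ∧ (a k ≤ |ψ j 0| →
        ∃ (g : ℤ → ℝ), (∀ n, φ n = (g n : ℂ)) ∧ Summable (fun n => (ψ j n - g n) ^ 2) ∧
          ∑' n, (ψ j n - g n) ^ 2 ≤ (4 * D k) ^ 2) ∧ (¬ a k ≤ |ψ j 0| → φ = 0) := by
      intro j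
      by_cases h : a k ≤ |ψ j 0|
      · obtain ⟨E, g, hg1, hg2, hg3, hg4⟩ := taskChain V L a τ d k hL hpos
          (fun i hi => (hK i (by omega)).1) (fun i hi => (hK i (by omega)).2.1)
          (fun i hi => (hK i (by omega)).2.2.1) (fun i hi => (hK i (by omega)).2.2.2) hs1 hs2
          (e j) (ψ j) (hψ j) h
        refine ⟨⟨fun n => (g n : ℂ), mem_L2 hg1⟩, ?_, fun _ => ⟨g, fun n => rfl, hg3, hg4⟩,
          fun h' => absurd h h'⟩
        apply Submodule.subset_span
        refine ⟨E, fun n => ?_⟩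
        show (g (n + 1) : ℂ) + (g (n - 1) : ℂ) + (V n : ℂ) * (g n : ℂ) = (E : ℂ) * (g n : ℂ)
        exact_mod_cast hg2 n
      · exact ⟨0, Submodule.zero_mem _, fun h' => absurd h' h, fun _ => rfl⟩
    choose φ hφ1 hφ2 hφ3 using hex
    have hsum : ∀ j, Summable fun n => ψ j n ^ 2 := fun j => summ_fin (hψ j).1
    let ψc : Fin (2 * L k + 1) → L2 := fun j => ⟨fun n => (ψ j n : ℂ), mem_L2 (hsum j)⟩
    refine ⟨∑ j, ((ψ j 0 : ℝ) : ℂ) • φ j, Submodule.sum_mem _ fun j _ =>
      Submodule.smul_mem _ _ (hφ1 j), ?_⟩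
    -- decomposition
    set c : Fin (2 * L k + 1) → ℝ := fun j => if a k ≤ |ψ j 0| then 0 else ψ j 0 with hc
    have hdec : (lp.single 2 (0 : ℤ) (1 : ℂ) : L2) - ∑ j, ((ψ j 0 : ℝ) : ℂ) • φ j =
        (∑ j, if a k ≤ |ψ j 0| then ((ψ j 0 : ℝ) : ℂ) • (ψc j - φ j) else 0) +
          ∑ j, ((c j : ℝ) : ℂ) • ψc j := by
      have h1 : (lp.single 2 (0 : ℤ) (1 : ℂ) : L2) = ∑ j, ((ψ j 0 : ℝ) : ℂ) • ψc j := by
        refine lp.ext (funext fun n => ?_)
        rw [lp.single_apply, Pi.single_apply, lp.coeFn_sum, Finset.sum_apply]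
        have h2 := hδ n
        have h3 : (∑ j, (((ψ j 0 : ℝ) : ℂ) • ψc j : L2) n) = ((∑ j, ψ j 0 * ψ j n : ℝ) : ℂ) := by
          rw [Complex.ofReal_sum]
          refine Finset.sum_congr rfl fun j _ => ?_
          rw [lp.coeFn_smul, Pi.smul_apply, smul_eq_mul, Complex.ofReal_mul]
        rw [h3, ← h2]
        split_ifs <;> simp
      rw [h1, ← Finset.sum_sub_distrib, ← Finset.sum_add_distrib]
      refine Finset.sum_congr rfl fun j _ => ?_
      by_cases h : a k ≤ |ψ j 0|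
      · simp only [hc, if_pos h]
        rw [smul_sub, Complex.ofReal_zero, zero_smul, add_zero]
      · simp only [hc, if_neg h, hφ3 j h, smul_zero, sub_zero, zero_add]
    rw [hdec]
    refine (norm_add_le _ _).trans (add_le_add ?_ ?_)
    · refine (norm_sum_le _ _).trans ?_
      have h1 : ∀ j ∈ (Finset.univ : Finset (Fin (2 * L k + 1))),
          ‖(if a k ≤ |ψ j 0| then ((ψ j 0 : ℝ) : ℂ) • (ψc j - φ j) else 0 : L2)‖ ≤ 4 * D k := by
        intro j _
        by_cases h : a k ≤ |ψ j 0|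
        · rw [if_pos h, norm_smul, Complex.norm_real, Real.norm_eq_abs]
          obtain ⟨g, hg1, hg2, hg3⟩ := hφ2 j h
          have h2 : ‖ψc j - φ j‖ ≤ 4 * D k := by
            apply le_of_sq_le_sq _ (by linarith [hD0 k])
            rw [norm_L2 (ψc j - φ j) (fun n => ψ j n - g n)]
            · exact hg3
            · intro n
              rw [lp.coeFn_sub, Pi.sub_apply, hg1]
              push_cast
              rfl
          calc |ψ j 0| * ‖ψc j - φ j‖ ≤ 1 * (4 * D k) :=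
                mul_le_mul (hle1 j) h2 (norm_nonneg _) (by norm_num)
            _ = 4 * D k := one_mul _
        · rw [if_neg h, norm_zero]
          linarith [hD0 k]
      refine (Finset.sum_le_sum h1).trans (le_of_eq ?_)
      rw [Finset.sum_const, Finset.card_univ, Fintype.card_fin, nsmul_eq_mul]
      push_cast
      ring
    · apply Real.le_sqrt_of_sq_le
      rw [norm_L2 (∑ j, ((c j : ℝ) : ℂ) • ψc j) (fun n => ∑ j, c j * ψ j n)]
      · rw [tsum_fin (f := fun n => ∑ j, c j * ψ j n) (a := -(L k : ℤ)) (b := L k)]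
        · rw [hpar c]
          have h1 : ∀ j ∈ (Finset.univ : Finset (Fin (2 * L k + 1))), c j ^ 2 ≤ a k ^ 2 := by
            intro j _
            simp only [hc]
            split_ifs with h
            · norm_num
              exact sq_nonneg _
            · push Not at h
              rw [← sq_abs]
              exact pow_le_pow_left₀ (abs_nonneg _) h.le 2
          refine (Finset.sum_le_sum h1).trans (le_of_eq ?_)
          rw [Finset.sum_const, Finset.card_univ, Fintype.card_fin, nsmul_eq_mul]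
          push_cast
          ring
        · intro n hn
          apply Finset.sum_eq_zero
          intro j _
          rw [(hψ j).1 n hn, mul_zero]
      · intro n
        rw [lp.coeFn_sum, Finset.sum_apply, Complex.ofReal_sum]
        refine Finset.sum_congr rfl fun j _ => ?_
        rw [lp.coeFn_smul, Pi.smul_apply, smul_eq_mul, Complex.ofReal_mul]
  have hlim : Tendsto (fun k => (2 * (L k : ℝ) + 1) * (4 * D k) +
      Real.sqrt ((2 * (L k : ℝ) + 1) * a k ^ 2)) atTop (𝓝 0) := by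
    have h1 := (hl2.const_mul 4)
    have h2 := (Real.continuous_sqrt.tendsto 0).comp hl1
    rw [Real.sqrt_zero] at h2
    rw [mul_zero] at h1
    have h3 := h1.add h2
    rw [add_zero] at h3
    refine h3.congr fun k => ?_
    simp only [Function.comp, hD]
    ring
  show (lp.single 2 (0 : ℤ) (1 : ℂ) : L2) ∈ ((EigSpan V).topologicalClosure : Set L2)
  rw [Submodule.topologicalClosure_coe, Metric.mem_closure_iff]
  intro ε hε
  obtain ⟨k, hk1, hk2⟩ := ((hlim.eventually (gt_mem_nhds hε)).and (eventually_ge_atTop K)).exists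
  obtain ⟨y, hy1, hy2⟩ := key k hk2
  refine ⟨y, hy1, ?_⟩
  rw [dist_eq_norm]
  linarith

theorem taskTop : TaskTop := by
  intro V h
  have hm : ∀ m : ℤ, (lp.single 2 m (1 : ℂ) : L2) ∈ (EigSpan V).topologicalClosure := by
    intro m
    have h1 := h m
    have h2 : (lp.single 2 m (1 : ℂ) : L2) = SS (-m) (lp.single 2 (0 : ℤ) (1 : ℂ) : L2) := by
      refine lp.ext (funext fun n => ?_)
      rw [SS_apply, lp.single_apply, lp.single_apply, Pi.single_apply, Pi.single_apply]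
      by_cases hn : n = m
      · rw [if_pos hn, if_pos (by omega)]
      · rw [if_neg hn, if_neg (by omega)]
    rw [h2]
    have h3 : (EigSpan fun n => V (m + n)) ≤ (EigSpan V).comap (SS (-m)).toLinearMap := by
      unfold EigSpan
      rw [Submodule.span_le]
      rintro ψ ⟨E, hE⟩
      rw [SetLike.mem_coe, Submodule.mem_comap]
      apply Submodule.subset_span
      refine ⟨E, fun n => ?_⟩
      show (SS (-m) ψ) (n + 1) + (SS (-m) ψ) (n - 1) + (V n : ℂ) * (SS (-m) ψ) n =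
        (E : ℂ) * (SS (-m) ψ) n
      rw [SS_apply, SS_apply, SS_apply]
      have h4 := hE (n + -m)
      simp only [show m + (n + -m) = n by ring] at h4
      rw [show n + 1 + -m = n + -m + 1 by ring, show n - 1 + -m = n + -m - 1 by ring]
      exact h4
    have h5 : (EigSpan fun n => V (m + n)).topologicalClosure ≤
        (EigSpan V).topologicalClosure.comap (SS (-m)).toLinearMap := by
      apply Submodule.topologicalClosure_minimal
      · exact h3.trans (Submodule.comap_mono (Submodule.le_topologicalClosure _))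
      · exact (Submodule.isClosed_topologicalClosure _).preimage (SS (-m)).continuous
    exact h5 h1
  rw [eq_top_iff]
  intro ψ _
  have h1 := lp.hasSum_single (by norm_num : (2 : ENNReal) ≠ ⊤) ψ
  have hcl := Submodule.isClosed_topologicalClosure (EigSpan V)
  refine hcl.mem_of_tendsto h1 (Eventually.of_forall fun s => ?_)
  apply Submodule.sum_mem
  intro m _
  have h2 : (lp.single 2 m (ψ m) : L2) = ψ m • (lp.single 2 m (1 : ℂ) : L2) := by
    rw [← lp.single_smul, smul_eq_mul, mul_one]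
  rw [h2]
  exact Submodule.smul_mem _ _ (hm m)

end Pool.Agent.W810.PP
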