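import Pool.Agent.W810.PP.Box

set_option autoImplicit false

namespace Pool.Agent.W810.PP

open Pool.Agent.H695R3.PP

lemma exists_unit (p q : ℝ) : ∃ α β : ℝ, α ^ 2 + β ^ 2 = 1 ∧ α * p + β * q = 0 := by
  by_cases h : p ^ 2 + q ^ 2 = 0
  · have hp : p = 0 := by nlinarith [sq_nonneg p, sq_nonneg q]
    have hq : q = 0 := by nlinarith [sq_nonneg p, sq_nonneg q]
    exact ⟨1, 0, by norm_num, by rw [hp, hq]; ring⟩
  · have hpos : 0 < p ^ 2 + q ^ 2 := lt_of_le_of_ne (by positivity) (Ne.symm h)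
    have hs : Real.sqrt (p ^ 2 + q ^ 2) ^ 2 = p ^ 2 + q ^ 2 := Real.sq_sqrt hpos.le
    have hs0 : 0 < Real.sqrt (p ^ 2 + q ^ 2) := Real.sqrt_pos.2 hpos
    refine ⟨q / Real.sqrt (p ^ 2 + q ^ 2), -p / Real.sqrt (p ^ 2 + q ^ 2), ?_, ?_⟩
    · rw [div_pow, div_pow, hs, ← add_div]
      rw [div_eq_one_iff_eq hpos.ne']
      ring
    · field_simp
      ring

lemma orth {V : ℤ → ℝ} {a b : ℤ} {E E' : ℝ} {ψ ψ' : ℤ → ℝ} (h : IsEig V a b E ψ)
    (h' : IsEig V a b E' ψ') (hne : E ≠ E') : ∑ n ∈ Finset.Icc a b, ψ n * ψ' n = 0 := by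
  have hab : a ≤ b := by
    by_contra hc
    have := h.2.1
    rw [nsq, Finset.Icc_eq_empty (by omega)] at this
    simp at this
  obtain ⟨M, hM⟩ : ∃ M : ℕ, b = a + M - 1 := ⟨(b - a + 1).toNat, by omega⟩
  subst hM
  obtain ⟨h1, -⟩ := boxL_res V a M E ψ h
  obtain ⟨h2, -⟩ := boxL_res V a M E' ψ' h'
  have h3 := boxL_symm V a M (res a M ψ) (res a M ψ')
  rw [h1, h2, inner_smul_left, inner_smul_right, conj_trivial] at h3
  have h4 : inner ℝ (res a M ψ) (res a M ψ') = 0 := by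
    have : (E - E') * inner ℝ (res a M ψ) (res a M ψ') = 0 := by linarith
    rcases mul_eq_zero.1 this with h5 | h5
    · exact absurd (sub_eq_zero.1 h5) hne
    · exact h5
  rw [PiLp.inner_apply] at h4
  rw [sum_box, ← h4]
  refine Finset.sum_congr rfl fun i _ => ?_
  rw [res_apply, res_apply, RCLike.inner_apply, conj_trivial]
  ring

lemma int_find (P : ℤ → Prop) (a b : ℤ) (hab : a ≤ b) (ha : ¬ P a) (hb : P b) :
    ∃ m, a < m ∧ m ≤ b ∧ P m ∧ ¬ P (m - 1) := by
  obtain ⟨k, hk⟩ : ∃ k : ℕ, b = a + k := ⟨(b - a).toNat, by omega⟩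
  subst hk
  induction k with
  | zero => exact absurd (by simpa using hb) ha
  | succ k ih =>
    by_cases h : P (a + k)
    · obtain ⟨m, h1, h2, h3, h4⟩ := ih (by omega) h
      exact ⟨m, h1, by push_cast; omega, h3, h4⟩
    · refine ⟨a + ((k + 1 : ℕ) : ℤ), by push_cast; omega, le_rfl, hb, ?_⟩
      have : a + ((k + 1 : ℕ) : ℤ) - 1 = a + k := by push_cast; ring
      rw [this]
      exact h

/-- cutting a combination of two eigenvectors -/
lemma cut_approx (hA : TaskApprox) {V : ℤ → ℝ} {a b c e : ℤ} {E E' d α β : ℝ} {ψ ψ' : ℤ → ℝ}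
    (h : IsEig V a b E ψ) (h' : IsEig V a b E' ψ') (hd : |E - E'| ≤ d) (hac : a ≤ c) (heb : e ≤ b)
    (hαβ : α ^ 2 + β ^ 2 = 1) (h1 : α * ψ (c - 1) + β * ψ' (c - 1) = 0)
    (h2 : α * ψ (e + 1) + β * ψ' (e + 1) = 0)
    (hm : 1 / 2 ≤ ∑ n ∈ Finset.Icc c e, (α * ψ n + β * ψ' n) ^ 2) :
    ∃ lam φ, IsEig V c e lam φ ∧ |lam - E| ≤ 3 / 2 * d := by
  have hd0 : 0 ≤ d := (abs_nonneg _).trans hd
  set g : ℤ → ℝ := fun n => if c ≤ n ∧ n ≤ e then α * ψ n + β * ψ' n else 0 with hg
  have hgin : ∀ n, c - 1 ≤ n → n ≤ e + 1 → g n = α * ψ n + β * ψ' n := by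
    intro n h3 h4
    simp only [hg]
    by_cases h5 : c ≤ n ∧ n ≤ e
    · rw [if_pos h5]
    · rw [if_neg h5]
      by_cases h6 : n < c
      · have : n = c - 1 := by omega
        rw [this, h1]
      · have : n = e + 1 := by omega
        rw [this, h2]
  have hnsq : nsq c e g = ∑ n ∈ Finset.Icc c e, (α * ψ n + β * ψ' n) ^ 2 := by
    unfold nsq
    refine Finset.sum_congr rfl fun n hn => ?_
    rw [Finset.mem_Icc] at hn
    rw [hgin n (by omega) (by omega)]
  refine hA V c e E (3 / 2 * d) g (by positivity) ?_ ?_ ?_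
  · intro n hn
    simp only [hg]
    rw [if_neg (by omega)]
  · rw [hnsq]; linarith
  · rw [hnsq]
    have h3 : ∀ n ∈ Finset.Icc c e, (g (n + 1) + g (n - 1) + V n * g n - E * g n) ^ 2 ≤
        d ^ 2 * ψ' n ^ 2 := by
      intro n hn
      rw [Finset.mem_Icc] at hn
      rw [hgin _ (by omega) (by omega), hgin _ (by omega) (by omega), hgin _ (by omega) (by omega)]
      have e1 := h.2.2 n (by omega) (by omega)
      have e2 := h'.2.2 n (by omega) (by omega)
      have e3 : α * ψ (n + 1) + β * ψ' (n + 1) + (α * ψ (n - 1) + β * ψ' (n - 1)) +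
          V n * (α * ψ n + β * ψ' n) - E * (α * ψ n + β * ψ' n) = β * (E' - E) * ψ' n := by
        linear_combination α * e1 + β * e2
      rw [e3, mul_pow, mul_pow]
      have hβ : β ^ 2 ≤ 1 := by nlinarith [sq_nonneg α]
      have hE : (E' - E) ^ 2 ≤ d ^ 2 := by
        rw [← sq_abs (E' - E), abs_sub_comm]
        exact pow_le_pow_left₀ (abs_nonneg _) hd 2
      have : β ^ 2 * (E' - E) ^ 2 ≤ 1 * d ^ 2 := mul_le_mul hβ hE (sq_nonneg _) (by norm_num)
      rw [one_mul] at this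
      exact mul_le_mul_of_nonneg_right this (sq_nonneg _)
    have h4 : ∑ n ∈ Finset.Icc c e, ψ' n ^ 2 ≤ 1 := by
      rw [← h'.2.1, nsq]
      apply Finset.sum_le_sum_of_subset_of_nonneg
      · intro n hn
        rw [Finset.mem_Icc] at hn ⊢
        omega
      · intro n _ _
        positivity
    calc _ ≤ ∑ n ∈ Finset.Icc c e, d ^ 2 * ψ' n ^ 2 := Finset.sum_le_sum h3
      _ = d ^ 2 * ∑ n ∈ Finset.Icc c e, ψ' n ^ 2 := by rw [Finset.mul_sum]
      _ ≤ d ^ 2 * 1 := mul_le_mul_of_nonneg_left h4 (sq_nonneg _)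
      _ ≤ _ := by nlinarith [sq_nonneg d]

theorem taskSplit (hA : TaskApprox) : TaskSplit := by
  intro V a b E E' d ψ ψ' hab h h' hne hd
  choose α β hαβ hz using fun m : ℤ => exists_unit (ψ m) (ψ' m)
  have horth := orth h h' hne
  have htot : ∀ m, ∑ n ∈ Finset.Icc a b, (α m * ψ n + β m * ψ' n) ^ 2 = 1 := by
    intro m
    have e1 : ∀ n ∈ Finset.Icc a b, (α m * ψ n + β m * ψ' n) ^ 2 =
        α m ^ 2 * ψ n ^ 2 + β m ^ 2 * ψ' n ^ 2 + 2 * α m * β m * (ψ n * ψ' n) := by
      intro n _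
      ring
    rw [Finset.sum_congr rfl e1, Finset.sum_add_distrib, Finset.sum_add_distrib, ← Finset.mul_sum,
      ← Finset.mul_sum, ← Finset.mul_sum, horth]
    have e2 := h.2.1
    have e3 := h'.2.1
    unfold nsq at e2 e3
    rw [e2, e3, mul_zero, mul_one, mul_one, add_zero, hαβ]
  have hsplit : ∀ m, a ≤ m → m ≤ b → ∑ n ∈ Finset.Icc a (m - 1), (α m * ψ n + β m * ψ' n) ^ 2 +
      ∑ n ∈ Finset.Icc (m + 1) b, (α m * ψ n + β m * ψ' n) ^ 2 = 1 := by
    intro m h1 h2
    rw [← htot m]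
    have e1 : Finset.Icc a b = Finset.Icc a (m - 1) ∪ ({m} ∪ Finset.Icc (m + 1) b) := by
      ext n
      simp only [Finset.mem_union, Finset.mem_Icc, Finset.mem_singleton]
      omega
    rw [e1, Finset.sum_union, Finset.sum_union, Finset.sum_singleton, hz]
    · ring
    · rw [Finset.disjoint_left]
      intro n hn
      simp only [Finset.mem_Icc, Finset.mem_singleton] at hn ⊢
      omega
    · rw [Finset.disjoint_left]
      intro n hn
      simp only [Finset.mem_union, Finset.mem_Icc, Finset.mem_singleton] at hn ⊢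
      omega
  obtain ⟨m, hm1, hm2, hm3, hm4⟩ := int_find
    (fun m => 1 / 2 ≤ ∑ n ∈ Finset.Icc a (m - 1), (α m * ψ n + β m * ψ' n) ^ 2) a b hab (by
      rw [Finset.Icc_eq_empty (by omega)]
      norm_num) (by
      have := hsplit b hab le_rfl
      rw [Finset.Icc_eq_empty (by omega : ¬ b + 1 ≤ b), Finset.sum_empty, add_zero] at this
      rw [this]
      norm_num)
  refine ⟨m, hm1, hm2, ?_⟩
  have hout : ∀ n, n < a ∨ b < n → ∀ α β : ℝ, α * ψ n + β * ψ' n = 0 := by
    intro n hn α β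
    rw [h.1 n hn, h'.1 n hn]
    ring
  obtain ⟨lam, φ, hφ, hlam⟩ := cut_approx hA h h' hd le_rfl (show m - 1 ≤ b by omega) (hαβ m)
    (hout _ (by omega) _ _) (by rw [sub_add_cancel]; exact hz m) hm3
  have hm5 : 1 / 2 ≤ ∑ n ∈ Finset.Icc m b, (α (m - 1) * ψ n + β (m - 1) * ψ' n) ^ 2 := by
    have h1 := hsplit (m - 1) (by omega) (by omega)
    rw [sub_add_cancel] at h1
    push Not at hm4
    linarith
  obtain ⟨lam', φ', hφ', hlam'⟩ := cut_approx hA h h' hd (show a ≤ m by omega) le_rfl (hαβ (m - 1))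
    (hz (m - 1)) (hout _ (by omega) _ _) hm5
  refine ⟨lam, φ, lam', φ', hφ, hφ', ?_⟩
  have h1 := abs_le.1 hlam
  have h2 := abs_le.1 hlam'
  rw [abs_le]
  constructor <;> linarith

/-- eigenvalues of a box are simple -/
lemma simple_eig {V : ℤ → ℝ} {a b : ℤ} {E : ℝ} {ψ ψ' : ℤ → ℝ} (h : IsEig V a b E ψ)
    (h' : IsEig V a b E ψ') : ∑ n ∈ Finset.Icc a b, ψ n * ψ' n ≠ 0 := by
  have hab : a ≤ b := by
    by_contra hc
    have := h.2.1
    rw [nsq, Finset.Icc_eq_empty (by omega)] at this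
    simp at this
  have key : ∀ k : ℕ, a + k ≤ b + 1 → ψ' a * ψ (a + k) = ψ a * ψ' (a + k) ∧
      ψ' a * ψ (a + k - 1) = ψ a * ψ' (a + k - 1) := by
    intro k
    induction k with
    | zero =>
      intro _
      rw [Nat.cast_zero, add_zero, h.1 (a - 1) (by omega), h'.1 (a - 1) (by omega)]
      constructor <;> ring
    | succ k ih =>
      intro hk
      push_cast at hk ⊢
      obtain ⟨i1, i2⟩ := ih (by omega)
      have e1 := h.2.2 (a + k) (by omega) (by omega)
      have e2 := h'.2.2 (a + k) (by omega) (by omega)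
      rw [← add_assoc, add_sub_cancel_right]
      refine ⟨?_, i1⟩
      linear_combination ψ' a * e1 - ψ a * e2 - i2 + (E - V (a + k)) * i1
  have hprop : ∀ n, ψ' a * ψ n = ψ a * ψ' n := by
    intro n
    by_cases hn : n < a ∨ b < n
    · rw [h.1 n hn, h'.1 n hn]; ring
    · obtain ⟨k, hk⟩ : ∃ k : ℕ, n = a + k := ⟨(n - a).toNat, by omega⟩
      rw [hk]
      exact (key k (by omega)).1
  have hne : ∀ {φ : ℤ → ℝ}, IsEig V a b E φ → φ a ≠ 0 := by
    intro φ hφ h0
    have hz : ∀ k : ℕ, a + k ≤ b + 1 → φ (a + k) = 0 ∧ φ (a + k - 1) = 0 := by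
      intro k
      induction k with
      | zero =>
        intro _
        rw [Nat.cast_zero, add_zero]
        exact ⟨h0, hφ.1 _ (by omega)⟩
      | succ k ih =>
        intro hk
        push_cast at hk ⊢
        obtain ⟨i1, i2⟩ := ih (by omega)
        have e1 := hφ.2.2 (a + k) (by omega) (by omega)
        rw [i1, i2] at e1
        rw [← add_assoc, add_sub_cancel_right]
        exact ⟨by linarith, i1⟩
    have := hφ.2.1
    rw [nsq, Finset.sum_eq_zero] at this
    · norm_num at this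
    · intro n hn
      rw [Finset.mem_Icc] at hn
      obtain ⟨k, hk⟩ : ∃ k : ℕ, n = a + k := ⟨(n - a).toNat, by omega⟩
      rw [hk, (hz k (by omega)).1]
      norm_num
  intro h0
  have h1 : ψ' a * ∑ n ∈ Finset.Icc a b, ψ n * ψ' n = ψ a * ∑ n ∈ Finset.Icc a b, ψ' n ^ 2 := by
    rw [Finset.mul_sum, Finset.mul_sum]
    refine Finset.sum_congr rfl fun n _ => ?_
    linear_combination (ψ' n) * hprop n
  have h2 := h'.2.1
  unfold nsq at h2
  rw [h0, h2, mul_zero, mul_one] at h1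
  exact hne h h1.symm

theorem taskStep : TaskStep := by
  intro V L L' E τ d ψ hL hτ hτd hB hψ hp hm
  obtain ⟨M, hM⟩ : ∃ M : ℕ, M = 2 * L' + 1 := ⟨_, rfl⟩
  obtain ⟨a, ha⟩ : ∃ a : ℤ, a = -(L' : ℤ) := ⟨_, rfl⟩
  have hb : (L' : ℤ) = a + M - 1 := by rw [ha, hM]; push_cast; ring
  have hbad : ∀ E ψ E' ψ', IsEig V a (a + M - 1) E ψ → IsEig V a (a + M - 1) E' ψ' → E ≠ E' →
      d < |E - E'| := by
    intro E ψ E' ψ' h1 h2 h3
    by_contra hcon
    push Not at hcon
    apply hB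
    refine ⟨E, ψ, E', ψ', ?_, ?_, h3, hcon⟩
    · rw [← ha, hb]; exact h1
    · rw [← ha, hb]; exact h2
  have hd : 0 < d := by linarith
  set hs := boxL_symm V a M
  set bs := hs.eigenvectorBasis (finrankE M) with hbs
  set ev := hs.eigenvalues (finrankE M) with hev
  have heig : ∀ j, IsEig V a (a + M - 1) (ev j) (ext a M (bs j)) := by
    intro j
    apply isEig_ext
    · exact bs.orthonormal.1 j
    · exact hs.apply_eigenvectorBasis (finrankE M) j
  have hout : ∀ n, n < a ∨ a + M ≤ n → ψ n = 0 := fun n hn => hψ.1 n (by omega)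
  set x := res a M ψ with hx
  have hext : ∀ n, ext a M x n = ψ n := fun n => ext_res a M ψ hout n
  have hxn : ‖x‖ ^ 2 = 1 := by
    rw [hx, norm_res, ← hψ.2.1, nsq, nsq]
    symm
    apply Finset.sum_subset
    · intro n hn
      rw [Finset.mem_Icc] at hn ⊢
      omega
    · intro n _ hn
      rw [Finset.mem_Icc] at hn
      rw [hψ.1 n (by omega)]
      norm_num
  have hx1 : ‖x‖ = 1 := by
    have := norm_nonneg x
    nlinarith
  have hx0 : x ≠ 0 := by
    intro h
    rw [h, norm_zero] at hx1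
    norm_num at hx1
  have hres : ‖boxL V a M x - E • x‖ ^ 2 ≤ 2 * τ ^ 2 := by
    rw [EuclideanSpace.norm_sq_eq]
    have e1 : ∀ i : Fin M, ‖(boxL V a M x - E • x) i‖ ^ 2 =
        (fun n : ℤ => (ψ (n + 1) + ψ (n - 1) + V n * ψ n - E * ψ n) ^ 2) (a + (i : ℕ)) := by
      intro i
      rw [PiLp.sub_apply, PiLp.smul_apply, boxL_apply, hext, hext, hx, res_apply, smul_eq_mul,
        Real.norm_eq_abs, sq_abs]
    rw [Finset.sum_congr rfl fun i _ => e1 i,
      ← sum_box a M (fun n : ℤ => (ψ (n + 1) + ψ (n - 1) + V n * ψ n - E * ψ n) ^ 2)]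
    have e2 : ∀ n ∈ Finset.Icc a (a + M - 1),
        (ψ (n + 1) + ψ (n - 1) + V n * ψ n - E * ψ n) ^ 2 ≤
        (if n = L + 1 then τ ^ 2 else 0) + (if n = -(L : ℤ) - 1 then τ ^ 2 else 0) := by
      intro n hn
      rw [Finset.mem_Icc] at hn
      by_cases h1 : -(L : ℤ) ≤ n ∧ n ≤ L
      · have := hψ.2.2 n h1.1 h1.2
        rw [if_neg (by omega), if_neg (by omega), add_zero]
        have e : ψ (n + 1) + ψ (n - 1) + V n * ψ n - E * ψ n = 0 := by linarith
        rw [e]
        norm_num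
      · have h2 := hψ.1 n (by omega)
        by_cases h3 : n = L + 1
        · have h4 := hψ.1 (n + 1) (by omega)
          rw [if_pos h3, if_neg (by omega), add_zero, h2, h4, h3, add_sub_cancel_right]
          have e : (0 : ℝ) + ψ L + V (L + 1) * 0 - E * 0 = ψ L := by ring
          rw [e, ← sq_abs]
          exact pow_le_pow_left₀ (abs_nonneg _) hp 2
        · by_cases h5 : n = -(L : ℤ) - 1
          · have h4 := hψ.1 (n - 1) (by omega)
            rw [if_neg h3, if_pos h5, zero_add, h2, h4, h5, sub_add_cancel]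
            have e : ψ (-(L : ℤ)) + 0 + V (-(L : ℤ) - 1) * 0 - E * 0 = ψ (-(L : ℤ)) := by ring
            rw [e, ← sq_abs]
            exact pow_le_pow_left₀ (abs_nonneg _) hm 2
          · rw [if_neg h3, if_neg h5, h2, hψ.1 (n + 1) (by omega), hψ.1 (n - 1) (by omega)]
            norm_num
    refine (Finset.sum_le_sum e2).trans ?_
    rw [Finset.sum_add_distrib, Finset.sum_ite_eq', Finset.sum_ite_eq']
    have : 0 ≤ τ ^ 2 := sq_nonneg _
    split_ifs <;> linarith
  have hle : ‖boxL V a M x - E • x‖ ≤ 3 / 2 * τ * ‖x‖ := by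
    apply le_of_sq_le_sq _ (by positivity)
    rw [mul_pow, hxn]
    nlinarith [sq_nonneg τ]
  obtain ⟨i, hi⟩ := near_eigR (boxL V a M) hs (finrankE M) E (3 / 2 * τ) x hx0 hle
  change |ev i - E| ≤ 3 / 2 * τ at hi
  have hgap : ∀ j, j ≠ i → d / 2 ≤ |ev j - E| := by
    intro j hj
    have hne : ev j ≠ ev i := by
      intro heq
      have h1 := heig j
      rw [heq] at h1
      apply simple_eig h1 (heig i)
      rw [sum_box a M (fun n => ext a M (bs j) n * ext a M (bs i) n)]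
      have h2 : inner ℝ (bs j) (bs i) = (0 : ℝ) := bs.orthonormal.2 hj
      rw [PiLp.inner_apply] at h2
      rw [← h2]
      refine Finset.sum_congr rfl fun l _ => ?_
      rw [ext_add, ext_add, RCLike.inner_apply, conj_trivial]
      ring
    have h1 := hbad _ _ _ _ (heig j) (heig i) hne
    have h2 : |ev j - ev i| ≤ |ev j - E| + |ev i - E| := by
      have : ev j - ev i = (ev j - E) - (ev i - E) := by ring
      rw [this]
      exact abs_sub _ _
    linarith
  set c : Fin M → ℝ := fun j => inner ℝ (bs j) x with hc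
  have hsum1 : ∑ j, c j ^ 2 = 1 := by
    rw [← hxn, ← bs.sum_sq_norm_inner_right x]
    refine Finset.sum_congr rfl fun j _ => ?_
    rw [Real.norm_eq_abs, sq_abs]
  have hsum2 : ∑ j, (ev j - E) ^ 2 * c j ^ 2 ≤ 2 * τ ^ 2 := by
    refine le_trans (le_of_eq ?_) hres
    rw [← bs.sum_sq_norm_inner_right (boxL V a M x - E • x)]
    refine Finset.sum_congr rfl fun j _ => ?_
    have : inner ℝ (bs j) (boxL V a M x - E • x) = (ev j - E) * c j := by
      rw [inner_sub_right, ← hs (bs j) x]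
      have h1 : boxL V a M (bs j) = ev j • bs j := hs.apply_eigenvectorBasis (finrankE M) j
      rw [h1, inner_smul_left, inner_smul_right, conj_trivial]
      ring
    rw [this, Real.norm_eq_abs, sq_abs, mul_pow]
  have hci : 1 - c i ^ 2 ≤ 8 * τ ^ 2 / d ^ 2 := by
    have h1 : ∑ j ∈ Finset.univ.erase i, c j ^ 2 = 1 - c i ^ 2 := by
      rw [← hsum1, ← Finset.add_sum_erase _ _ (Finset.mem_univ i)]
      ring
    rw [← h1, le_div_iff₀ (by positivity)]
    have h2 : (d / 2) ^ 2 * ∑ j ∈ Finset.univ.erase i, c j ^ 2 ≤ 2 * τ ^ 2 := by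
      refine le_trans ?_ hsum2
      rw [← Finset.add_sum_erase _ _ (Finset.mem_univ i), Finset.mul_sum]
      have h3 : 0 ≤ (ev i - E) ^ 2 * c i ^ 2 := by positivity
      have h4 : ∑ j ∈ Finset.univ.erase i, (d / 2) ^ 2 * c j ^ 2 ≤
          ∑ j ∈ Finset.univ.erase i, (ev j - E) ^ 2 * c j ^ 2 := by
        apply Finset.sum_le_sum
        intro j hj
        have h5 := hgap j (Finset.ne_of_mem_erase hj)
        apply mul_le_mul_of_nonneg_right _ (sq_nonneg _)
        rw [← sq_abs (ev j - E)]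
        exact pow_le_pow_left₀ (by positivity) h5 2
      linarith
    nlinarith
  have hci1 : c i ^ 2 ≤ 1 := by
    rw [← hsum1]
    exact Finset.single_le_sum (f := fun j => c j ^ 2) (fun j _ => sq_nonneg _) (Finset.mem_univ i)
  obtain ⟨s, hs1, hs2⟩ : ∃ s : ℝ, s ^ 2 = 1 ∧ s * c i = |c i| := by
    rcases le_or_gt 0 (c i) with h | h
    · exact ⟨1, by norm_num, by rw [abs_of_nonneg h]; ring⟩
    · exact ⟨-1, by norm_num, by rw [abs_of_neg h]; ring⟩
  have hsn : ‖s • bs i‖ = 1 := by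
    rw [norm_smul, bs.orthonormal.1 i, mul_one, Real.norm_eq_abs]
    rw [← sq_abs] at hs1
    have := abs_nonneg s
    nlinarith
  refine ⟨ev i, ext a M (s • bs i), ?_, hi.trans (by linarith), ?_⟩
  · rw [← ha, hb]
    apply isEig_ext
    · exact hsn
    · rw [map_smul]
      have h1 : boxL V a M (bs i) = ev i • bs i := hs.apply_eigenvectorBasis (finrankE M) i
      rw [h1, smul_comm]
  · have e1 : ∑ n ∈ Finset.Icc (-(L' : ℤ)) L', (ψ n - ext a M (s • bs i) n) ^ 2 =
        ‖x - s • bs i‖ ^ 2 := by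
      rw [← ha, hb, sum_box, EuclideanSpace.norm_sq_eq]
      refine Finset.sum_congr rfl fun j _ => ?_
      rw [ext_add, PiLp.sub_apply, hx, res_apply, Real.norm_eq_abs, sq_abs]
    rw [e1, norm_sub_sq_real, hxn, hsn, inner_smul_right, real_inner_comm]
    change 1 - 2 * (s * c i) + 1 ^ 2 ≤ _
    rw [hs2]
    have h1 : c i ^ 2 ≤ |c i| := by
      rw [← sq_abs] at hci1 ⊢
      have := abs_nonneg (c i)
      nlinarith
    calc 1 - 2 * |c i| + 1 ^ 2 ≤ 2 * (1 - c i ^ 2) := by linarith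
      _ ≤ 2 * (8 * τ ^ 2 / d ^ 2) := by linarith
      _ = (4 * τ / d) ^ 2 := by field_simp; norm_num

end Pool.Agent.W810.PP
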