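import Pool.Agent.H695R3.PP.Stmts

set_option autoImplicit false

/-!
# Eigenvectors of boxes
-/

namespace Pool.Agent.W810.PP

open Pool.Agent.H695R3.PP

section
variable {V : ℤ → ℝ} {a b : ℤ}

/-- extension of a vector on the box by zero -/
noncomputable def ext (a : ℤ) (M : ℕ) (x : EuclideanSpace ℝ (Fin M)) (n : ℤ) : ℝ :=
  if h : (n - a).toNat < M ∧ a ≤ n then x ⟨(n - a).toNat, h.1⟩ else 0

lemma ext_add (a : ℤ) (M : ℕ) (x : EuclideanSpace ℝ (Fin M)) (i : Fin M) :
    ext a M x (a + (i : ℕ)) = x i := by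
  have h1 : (a + ((i : ℕ) : ℤ) - a).toNat = i := by omega
  have h2 : (a + ((i : ℕ) : ℤ) - a).toNat < M ∧ a ≤ a + ((i : ℕ) : ℤ) := ⟨by rw [h1]; exact i.2, by omega⟩
  have h3 : (⟨(a + ((i : ℕ) : ℤ) - a).toNat, h2.1⟩ : Fin M) = i := Fin.ext h1
  unfold ext
  rw [dif_pos h2, h3]

lemma ext_out (a : ℤ) (M : ℕ) (x : EuclideanSpace ℝ (Fin M)) (n : ℤ) (h : n < a ∨ a + M ≤ n) :
    ext a M x n = 0 := by
  unfold ext
  rw [dif_neg]
  omega

lemma sum_box (a : ℤ) (M : ℕ) (f : ℤ → ℝ) :
    ∑ n ∈ Finset.Icc a (a + M - 1), f n = ∑ i : Fin M, f (a + (i : ℕ)) := by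
  rw [Fin.sum_univ_eq_sum_range (fun i : ℕ => f (a + i)) M]
  symm
  apply Finset.sum_nbij' (fun i : ℕ => a + (i : ℤ)) (fun n : ℤ => (n - a).toNat)
  · intro i hi
    rw [Finset.mem_range] at hi
    rw [Finset.mem_Icc]
    omega
  · intro n hn
    rw [Finset.mem_Icc] at hn
    rw [Finset.mem_range]
    omega
  · intro i _
    simp
  · intro n hn
    rw [Finset.mem_Icc] at hn
    omega
  · intro i _
    rfl

/-- the Dirichlet restriction to `[a, a + M)` -/
noncomputable def boxL (V : ℤ → ℝ) (a : ℤ) (M : ℕ) :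
    EuclideanSpace ℝ (Fin M) →ₗ[ℝ] EuclideanSpace ℝ (Fin M) where
  toFun x := WithLp.toLp 2 (fun i => ext a M x (a + (i : ℕ) + 1) + ext a M x (a + (i : ℕ) - 1) +
    V (a + (i : ℕ)) * x i)
  map_add' x y := by
    ext i
    have h : ∀ n, ext a M (x + y) n = ext a M x n + ext a M y n := by
      intro n
      unfold ext
      split_ifs
      · rfl
      · simp
    simp only [h, PiLp.add_apply]
    ring
  map_smul' c x := by
    ext i
    have h : ∀ n, ext a M (c • x) n = c * ext a M x n := by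
      intro n
      unfold ext
      split_ifs
      · rfl
      · simp
    simp only [h, PiLp.smul_apply, smul_eq_mul, RingHom.id_apply]
    ring

lemma boxL_apply (V : ℤ → ℝ) (a : ℤ) (M : ℕ) (x : EuclideanSpace ℝ (Fin M)) (i : Fin M) :
    boxL V a M x i = ext a M x (a + (i : ℕ) + 1) + ext a M x (a + (i : ℕ) - 1) +
      V (a + (i : ℕ)) * x i := rfl

/-- a bilinear sum over the box as a sum over a large interval -/
lemma shift_sum (a : ℤ) (M : ℕ) (x y : EuclideanSpace ℝ (Fin M)) :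
    ∑ i : Fin M, y i * ext a M x (a + (i : ℕ) + 1) =
      ∑ i : Fin M, ext a M y (a + (i : ℕ) - 1) * x i := by
  have h1 : ∑ i : Fin M, y i * ext a M x (a + (i : ℕ) + 1) =
      ∑ n ∈ Finset.Icc a (a + M - 1), ext a M y n * ext a M x (n + 1) := by
    rw [sum_box a M (fun n => ext a M y n * ext a M x (n + 1))]
    refine Finset.sum_congr rfl fun i _ => ?_
    rw [ext_add]
  have h2 : ∑ i : Fin M, ext a M y (a + (i : ℕ) - 1) * x i =
      ∑ n ∈ Finset.Icc a (a + M - 1), ext a M y (n - 1) * ext a M x n := by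
    rw [sum_box a M (fun n => ext a M y (n - 1) * ext a M x n)]
    refine Finset.sum_congr rfl fun i _ => ?_
    rw [ext_add]
  rw [h1, h2]
  rcases Nat.eq_zero_or_pos M with hM | hM
  · subst hM
    rw [Finset.Icc_eq_empty (by omega)]
    simp
  have e1 : ∑ n ∈ Finset.Icc a (a + M - 1), ext a M y n * ext a M x (n + 1) =
      ∑ n ∈ Finset.Icc (a - 1) (a + M - 1), ext a M y n * ext a M x (n + 1) := by
    apply Finset.sum_subset
    · intro n hn
      rw [Finset.mem_Icc] at hn ⊢
      omega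
    · intro n hn hn'
      rw [Finset.mem_Icc] at hn hn'
      rw [ext_out a M y n (by omega), zero_mul]
  have e2 : ∑ n ∈ Finset.Icc a (a + M - 1), ext a M y (n - 1) * ext a M x n =
      ∑ n ∈ Finset.Icc a (a + M), ext a M y (n - 1) * ext a M x n := by
    apply Finset.sum_subset
    · intro n hn
      rw [Finset.mem_Icc] at hn ⊢
      omega
    · intro n hn hn'
      rw [Finset.mem_Icc] at hn hn'
      rw [ext_out a M x n (by omega), mul_zero]
  rw [e1, e2]
  apply Finset.sum_nbij' (fun n : ℤ => n + 1) (fun n : ℤ => n - 1)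
  · intro n hn
    rw [Finset.mem_Icc] at hn ⊢
    omega
  · intro n hn
    rw [Finset.mem_Icc] at hn ⊢
    omega
  · intro n _
    ring
  · intro n _
    ring
  · intro n _
    simp

lemma boxL_symm (V : ℤ → ℝ) (a : ℤ) (M : ℕ) : (boxL V a M).IsSymmetric := by
  intro x y
  simp only [PiLp.inner_apply, boxL_apply, RCLike.inner_apply, conj_trivial]
  have h1 := shift_sum a M x y
  have h2 := shift_sum a M y x
  calc ∑ i : Fin M, y i * (ext a M x (a + (i : ℕ) + 1) + ext a M x (a + (i : ℕ) - 1) +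
      V (a + (i : ℕ)) * x i) = ∑ i : Fin M, y i * ext a M x (a + (i : ℕ) + 1) +
        ∑ i : Fin M, ext a M x (a + (i : ℕ) - 1) * y i +
          ∑ i : Fin M, V (a + (i : ℕ)) * x i * y i := by
        rw [← Finset.sum_add_distrib, ← Finset.sum_add_distrib]
        refine Finset.sum_congr rfl fun i _ => ?_
        ring
    _ = ∑ i : Fin M, ext a M y (a + (i : ℕ) - 1) * x i +
        ∑ i : Fin M, x i * ext a M y (a + (i : ℕ) + 1) +
        ∑ i : Fin M, V (a + (i : ℕ)) * x i * y i := by rw [h1, ← h2]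
    _ = _ := by
        rw [← Finset.sum_add_distrib, ← Finset.sum_add_distrib]
        refine Finset.sum_congr rfl fun i _ => ?_
        ring

/-- the restriction of a function to the box -/
noncomputable def res (a : ℤ) (M : ℕ) (f : ℤ → ℝ) : EuclideanSpace ℝ (Fin M) :=
  WithLp.toLp 2 (fun i => f (a + (i : ℕ)))

lemma res_apply (a : ℤ) (M : ℕ) (f : ℤ → ℝ) (i : Fin M) : res a M f i = f (a + (i : ℕ)) := rfl

lemma ext_res (a : ℤ) (M : ℕ) (f : ℤ → ℝ) (hf : ∀ n, n < a ∨ a + M ≤ n → f n = 0) (n : ℤ) :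
    ext a M (res a M f) n = f n := by
  by_cases h : n < a ∨ a + M ≤ n
  · rw [ext_out a M _ n h, hf n h]
  · obtain ⟨i, hi⟩ : ∃ i : Fin M, n = a + (i : ℕ) :=
      ⟨⟨(n - a).toNat, by omega⟩, by simp; omega⟩
    rw [hi, ext_add, res_apply]

lemma norm_res (a : ℤ) (M : ℕ) (f : ℤ → ℝ) : ‖res a M f‖ ^ 2 = nsq a (a + M - 1) f := by
  rw [EuclideanSpace.norm_sq_eq, nsq, sum_box]
  refine Finset.sum_congr rfl fun i _ => ?_
  rw [res_apply, Real.norm_eq_abs, sq_abs]

lemma nsq_ext (a : ℤ) (M : ℕ) (x : EuclideanSpace ℝ (Fin M)) :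
    nsq a (a + M - 1) (ext a M x) = ‖x‖ ^ 2 := by
  rw [EuclideanSpace.norm_sq_eq, nsq, sum_box]
  refine Finset.sum_congr rfl fun i _ => ?_
  rw [ext_add, Real.norm_eq_abs, sq_abs]

/-- normalised eigenvectors of `boxL` are eigenvectors of the box -/
lemma isEig_ext (V : ℤ → ℝ) (a : ℤ) (M : ℕ) (E : ℝ) (x : EuclideanSpace ℝ (Fin M)) (hx : ‖x‖ = 1)
    (h : boxL V a M x = E • x) : IsEig V a (a + M - 1) E (ext a M x) := by
  refine ⟨fun n hn => ext_out a M x n (by omega), by rw [nsq_ext, hx]; norm_num, ?_⟩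
  intro n h1 h2
  obtain ⟨i, hi⟩ : ∃ i : Fin M, n = a + (i : ℕ) :=
    ⟨⟨(n - a).toNat, by omega⟩, by simp; omega⟩
  have h3 := congrArg (fun y : EuclideanSpace ℝ (Fin M) => y i) h
  simp only [boxL_apply, PiLp.smul_apply, smul_eq_mul] at h3
  rw [hi, ext_add]
  exact h3

/-- eigenvectors of the box are eigenvectors of `boxL` -/
lemma boxL_res (V : ℤ → ℝ) (a : ℤ) (M : ℕ) (E : ℝ) (ψ : ℤ → ℝ) (h : IsEig V a (a + M - 1) E ψ) :
    boxL V a M (res a M ψ) = E • res a M ψ ∧ ‖res a M ψ‖ = 1 := by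
  obtain ⟨h1, h2, h3⟩ := h
  constructor
  · ext i
    rw [boxL_apply, ext_res a M ψ (fun n hn => h1 n (by omega)),
      ext_res a M ψ (fun n hn => h1 n (by omega)), PiLp.smul_apply, res_apply, smul_eq_mul]
    exact h3 _ (by omega) (by have := i.2; omega)
  · have h4 := norm_res a M ψ
    rw [h2] at h4
    have h5 := norm_nonneg (res a M ψ)
    nlinarith

/-- for symmetric operators, approximate eigenvectors are near eigenvalues; spectral form -/
theorem near_eigR {X : Type*} [NormedAddCommGroup X] [InnerProductSpace ℝ X]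
    [FiniteDimensional ℝ X] (T : X →ₗ[ℝ] X) (hT : T.IsSymmetric) {m : ℕ}
    (hm : Module.finrank ℝ X = m) (E δ : ℝ) (x : X) (hx : x ≠ 0)
    (h : ‖T x - E • x‖ ≤ δ * ‖x‖) : ∃ i : Fin m, |hT.eigenvalues hm i - E| ≤ δ := by
  set b := hT.eigenvectorBasis hm with hb
  by_contra hcon
  push Not at hcon
  have hxpos : 0 < ‖x‖ := norm_pos_iff.mpr hx
  have hδ : 0 ≤ δ := by
    by_contra hneg
    have : δ * ‖x‖ < 0 := mul_neg_of_neg_of_pos (not_le.mp hneg) hxpos
    linarith [norm_nonneg (T x - E • x)]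
  have hinner : ∀ i, inner ℝ (b i) (T x - E • x) =
      (hT.eigenvalues hm i - E) * inner ℝ (b i) x := by
    intro i
    rw [inner_sub_right, ← hT (b i) x]
    have h1 : T (b i) = hT.eigenvalues hm i • b i := hT.apply_eigenvectorBasis hm i
    rw [h1, inner_smul_left, inner_smul_right, conj_trivial]
    ring
  have hn : ∀ i, ‖inner ℝ (b i) (T x - E • x)‖ ^ 2 =
      |hT.eigenvalues hm i - E| ^ 2 * ‖inner ℝ (b i) x‖ ^ 2 := by
    intro i
    rw [hinner, norm_mul, mul_pow, Real.norm_eq_abs (_ - _)]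
  have hs1 := b.sum_sq_norm_inner_right (T x - E • x)
  have hs2 := b.sum_sq_norm_inner_right x
  have hlt : δ ^ 2 * ‖x‖ ^ 2 < ‖T x - E • x‖ ^ 2 := by
    rw [← hs1, ← hs2, Finset.mul_sum]
    have hle : ∀ i ∈ Finset.univ, δ ^ 2 * ‖inner ℝ (b i) x‖ ^ 2 ≤
        ‖inner ℝ (b i) (T x - E • x)‖ ^ 2 := by
      intro i _
      rw [hn]
      apply mul_le_mul_of_nonneg_right _ (by positivity)
      exact pow_le_pow_left₀ hδ (hcon i).le 2
    apply Finset.sum_lt_sum hle
    by_contra hall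
    push Not at hall
    have h0 : ∀ i, ‖inner ℝ (b i) x‖ ^ 2 = 0 := by
      intro i
      by_contra hne
      have hpos : 0 < ‖inner ℝ (b i) x‖ ^ 2 := lt_of_le_of_ne (by positivity) (Ne.symm hne)
      have h1 := hall i (Finset.mem_univ i)
      rw [hn] at h1
      have h2 : δ ^ 2 < |hT.eigenvalues hm i - E| ^ 2 := pow_lt_pow_left₀ (hcon i) hδ (by norm_num)
      nlinarith
    have : ‖x‖ ^ 2 = 0 := by rw [← hs2]; exact Finset.sum_eq_zero fun i _ => h0 i
    nlinarith
  have h2 : ‖T x - E • x‖ ^ 2 ≤ (δ * ‖x‖) ^ 2 := pow_le_pow_left₀ (norm_nonneg _) h 2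
  nlinarith

lemma finrankE (M : ℕ) : Module.finrank ℝ (EuclideanSpace ℝ (Fin M)) = M := by simp

theorem taskApprox : TaskApprox := by
  intro V a b E δ f hδ hf hpos hle
  have hab : a ≤ b := by
    by_contra h
    rw [nsq, Finset.Icc_eq_empty (by omega)] at hpos
    simp at hpos
  obtain ⟨M, hM⟩ : ∃ M : ℕ, b = a + M - 1 := ⟨(b - a + 1).toNat, by omega⟩
  subst hM
  have hext : ∀ n, ext a M (res a M f) n = f n := fun n =>
    ext_res a M f (fun n hn => hf n (by omega)) n
  have hn := norm_res a M f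
  have hx0 : res a M f ≠ 0 := by
    intro h
    rw [h, norm_zero] at hn
    rw [← hn] at hpos
    norm_num at hpos
  have hres : ‖boxL V a M (res a M f) - E • res a M f‖ ≤ δ * ‖res a M f‖ := by
    apply le_of_sq_le_sq _ (by positivity)
    rw [mul_pow, hn, EuclideanSpace.norm_sq_eq]
    refine le_trans (le_of_eq ?_) hle
    rw [sum_box]
    refine Finset.sum_congr rfl fun i _ => ?_
    rw [PiLp.sub_apply, PiLp.smul_apply, boxL_apply, hext, hext, res_apply, smul_eq_mul,
      Real.norm_eq_abs, sq_abs]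
  obtain ⟨i, hi⟩ := near_eigR (boxL V a M) (boxL_symm V a M) (finrankE M) E δ _ hx0 hres
  refine ⟨(boxL_symm V a M).eigenvalues (finrankE M) i,
    ext a M ((boxL_symm V a M).eigenvectorBasis (finrankE M) i), ?_, hi⟩
  apply isEig_ext
  · exact ((boxL_symm V a M).eigenvectorBasis (finrankE M)).orthonormal.1 i
  · exact (boxL_symm V a M).apply_eigenvectorBasis (finrankE M) i

theorem taskCard : TaskCard := by
  intro V a b hab
  obtain ⟨M, hM⟩ : ∃ M : ℕ, b = a + M - 1 := ⟨(b - a + 1).toNat, by omega⟩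
  subst hM
  refine ⟨Finset.univ.image ((boxL_symm V a M).eigenvalues (finrankE M)), ?_, ?_⟩
  · have h1 : (Finset.univ.image ((boxL_symm V a M).eigenvalues (finrankE M))).card ≤ M := by
      refine Finset.card_image_le.trans ?_
      simp
    omega
  · intro E ψ h
    obtain ⟨h1, h2⟩ := boxL_res V a M E ψ h
    have hx : res a M ψ ≠ 0 := by
      intro h0
      rw [h0, norm_zero] at h2
      norm_num at h2
    obtain ⟨i, hi⟩ := near_eigR (boxL V a M) (boxL_symm V a M) (finrankE M) E 0 _ hx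
      (by rw [h1, sub_self, norm_zero, zero_mul])
    rw [Finset.mem_image]
    refine ⟨i, Finset.mem_univ i, ?_⟩
    have := abs_nonneg ((boxL_symm V a M).eigenvalues (finrankE M) i - E)
    have h3 : |(boxL_symm V a M).eigenvalues (finrankE M) i - E| = 0 := le_antisymm hi this
    rw [abs_eq_zero] at h3
    linarith

theorem taskCompl : TaskCompl := by
  intro V L
  have hb : (L : ℤ) = -(L : ℤ) + ((2 * L + 1 : ℕ) : ℤ) - 1 := by push_cast; ring
  set M : ℕ := 2 * L + 1 with hM
  set a : ℤ := -(L : ℤ) with ha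
  set hs := boxL_symm V a M
  set bs := hs.eigenvectorBasis (finrankE M) with hbs
  have hj0 : (L : ℕ) < M := by omega
  have ha0 : a + ((⟨L, hj0⟩ : Fin M) : ℕ) = 0 := by simp [ha]
  refine ⟨fun i => hs.eigenvalues (finrankE M) i, fun i => ext a M (bs i), ?_, ?_, ?_⟩
  · intro j
    rw [hb]
    apply isEig_ext
    · exact bs.orthonormal.1 j
    · exact hs.apply_eigenvectorBasis (finrankE M) j
  · intro n
    by_cases hn : n < a ∨ a + M ≤ n
    · rw [if_neg (by omega)]
      symm
      apply Finset.sum_eq_zero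
      intro j _
      show ext a M (bs j) 0 * ext a M (bs j) n = 0
      rw [ext_out a M _ n hn, mul_zero]
    · obtain ⟨i, hi⟩ : ∃ i : Fin M, n = a + (i : ℕ) :=
        ⟨⟨(n - a).toNat, by omega⟩, by simp; omega⟩
      have h1 := bs.sum_repr (EuclideanSpace.single (⟨L, hj0⟩ : Fin M) (1 : ℝ))
      have h2 := congrArg (fun y : EuclideanSpace ℝ (Fin M) => y i) h1
      have h3 : ∀ j, ext a M (bs j) 0 = bs j ⟨L, hj0⟩ := by
        intro j
        rw [← ha0, ext_add]
      have h4 : ∀ j, bs.repr (EuclideanSpace.single (⟨L, hj0⟩ : Fin M) (1 : ℝ)) j =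
          bs j ⟨L, hj0⟩ := by
        intro j
        rw [bs.repr_apply_apply, EuclideanSpace.inner_single_right]
        simp
      simp only [h4] at h2
      rw [hi]
      simp only [h3, ext_add]
      have h5 : (∑ j, bs j ⟨L, hj0⟩ • bs j : EuclideanSpace ℝ (Fin M)) i =
          ∑ j, bs j ⟨L, hj0⟩ * bs j i := by
        rw [WithLp.ofLp_sum, Finset.sum_apply]
        rfl
      rw [h5] at h2
      rw [h2]
      rw [EuclideanSpace.single_apply]
      by_cases hc : a + ((i : ℕ) : ℤ) = 0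
      · rw [if_pos hc, if_pos]
        apply Fin.ext
        simp only
        omega
      · rw [if_neg hc, if_neg]
        intro h
        apply hc
        rw [h]
        exact ha0
  · intro c
    rw [hb]
    have h1 : ∀ n, ∑ j, c j * ext a M (bs j) n = ext a M (∑ j, c j • bs j) n := by
      intro n
      by_cases hn : n < a ∨ a + M ≤ n
      · rw [ext_out a M _ n hn]
        apply Finset.sum_eq_zero
        intro j _
        rw [ext_out a M _ n hn, mul_zero]
      · obtain ⟨i, hi⟩ : ∃ i : Fin M, n = a + (i : ℕ) :=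
          ⟨⟨(n - a).toNat, by omega⟩, by simp; omega⟩
        rw [hi]
        simp only [ext_add]
        rw [WithLp.ofLp_sum, Finset.sum_apply]
        rfl
    simp only [h1]
    have h2 := nsq_ext a M (∑ j, c j • bs j)
    rw [nsq] at h2
    rw [h2]
    have h3 := bs.sum_sq_norm_inner_right (∑ j, c j • bs j)
    rw [← h3]
    refine Finset.sum_congr rfl fun j _ => ?_
    have h4 : inner ℝ (bs j) (∑ j, c j • bs j) = c j := by
      have := bs.orthonormal.inner_right_fintype c j
      simpa using this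
    rw [h4, Real.norm_eq_abs, sq_abs]

end

end Pool.Agent.W810.PP
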